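import Pool.Agent.FactLoc.Rep

/-!
# Congruences: power series vanishing to order `M` give integers divisible by `q^M`
-/

namespace Pool.Agent.FactLoc

open Finset

/-- `x = (S, N)` is approximable: `S` and `N` are simultaneously close to `p`, `p(Y)` -/
def Cong (q : ℤ) (Y : ℕ) (x : PowerSeries ℤ × ℤ) : Prop :=
  ∀ M : ℕ, ∃ p : Polynomial ℤ, (PowerSeries.X ^ M ∣ x.1 - (p : PowerSeries ℤ)) ∧
    q ^ M ∣ x.2 - p.eval (Y : ℤ)

variable {q : ℤ} {Y : ℕ}

lemma cong_add {x y : PowerSeries ℤ × ℤ} (hx : Cong q Y x) (hy : Cong q Y y) :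
    Cong q Y (x + y) := by
  intro M
  obtain ⟨p, h1, h2⟩ := hx M
  obtain ⟨r, h3, h4⟩ := hy M
  refine ⟨p + r, ?_, ?_⟩
  · have : (x + y).1 - ((p + r : Polynomial ℤ) : PowerSeries ℤ) =
        (x.1 - (p : PowerSeries ℤ)) + (y.1 - (r : PowerSeries ℤ)) := by
      rw [Prod.fst_add, Polynomial.coe_add]; ring
    rw [this]
    exact dvd_add h1 h3
  · have : (x + y).2 - (p + r).eval (Y : ℤ) =
        (x.2 - p.eval (Y : ℤ)) + (y.2 - r.eval (Y : ℤ)) := by
      rw [Prod.snd_add, Polynomial.eval_add]; ring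
    rw [this]
    exact dvd_add h2 h4

lemma cong_mul {x y : PowerSeries ℤ × ℤ} (hx : Cong q Y x) (hy : Cong q Y y) :
    Cong q Y (x * y) := by
  intro M
  obtain ⟨p, h1, h2⟩ := hx M
  obtain ⟨r, h3, h4⟩ := hy M
  refine ⟨p * r, ?_, ?_⟩
  · have : (x * y).1 - ((p * r : Polynomial ℤ) : PowerSeries ℤ) =
        (x.1 - (p : PowerSeries ℤ)) * y.1 + (p : PowerSeries ℤ) * (y.1 - (r : PowerSeries ℤ)) := by
      rw [Prod.fst_mul, Polynomial.coe_mul]; ring
    rw [this]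
    exact dvd_add (h1.mul_right _) (h3.mul_left _)
  · have : (x * y).2 - (p * r).eval (Y : ℤ) =
        (x.2 - p.eval (Y : ℤ)) * y.2 + p.eval (Y : ℤ) * (y.2 - r.eval (Y : ℤ)) := by
      rw [Prod.snd_mul, Polynomial.eval_mul]; ring
    rw [this]
    exact dvd_add (h2.mul_right _) (h4.mul_left _)

lemma cong_coe (f : Polynomial ℤ) : Cong q Y ((f : PowerSeries ℤ), f.eval (Y : ℤ)) := by
  intro M
  exact ⟨f, by simp, by simp⟩

lemma cong_zeta {ρ : ℕ → ℕ} {z : ℕ → ℤ} (i : ℕ) (hz : z i ^ 2 + z i = ρ i * (Y : ℤ))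
    (hqY : q ∣ (Y : ℤ)) (hqz : q ∣ z i) : Cong q Y (zeta ρ z i) := by
  have hs := zs_eq (ρ i)
  suffices h : ∀ M : ℕ, ∃ p : Polynomial ℤ, Polynomial.X ∣ p ∧
      (PowerSeries.X ^ M ∣ zs (ρ i) - (p : PowerSeries ℤ)) ∧ q ^ M ∣ z i - p.eval (Y : ℤ) by
    intro M
    obtain ⟨p, _, h2, h3⟩ := h M
    exact ⟨p, h2, h3⟩
  intro M
  induction M with
  | zero => exact ⟨0, dvd_zero _, by simp, by simp⟩
  | succ M ih =>
    obtain ⟨p, h1, h2, h3⟩ := ih
    obtain ⟨p', hp'⟩ := h1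
    refine ⟨Polynomial.C ((ρ i : ℕ) : ℤ) * Polynomial.X - p ^ 2, ?_, ?_, ?_⟩
    · refine dvd_sub (Dvd.intro_left _ rfl) ?_
      rw [hp']
      exact ⟨p' * (Polynomial.X * p'), by ring⟩
    · have e1 : zs (ρ i) - ((Polynomial.C ((ρ i : ℕ) : ℤ) * Polynomial.X - p ^ 2 :
          Polynomial ℤ) : PowerSeries ℤ) =
          -((zs (ρ i) - (p : PowerSeries ℤ)) * (zs (ρ i) + (p : PowerSeries ℤ))) := by
        rw [Polynomial.coe_sub, Polynomial.coe_mul, Polynomial.coe_C, Polynomial.coe_X,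
          Polynomial.coe_pow]
        linear_combination hs
      rw [e1, dvd_neg, pow_succ]
      refine mul_dvd_mul h2 ?_
      have hX1 : PowerSeries.X ∣ zs (ρ i) :=
        PowerSeries.X_dvd_iff.2 (constantCoeff_zs _)
      have hX2 : PowerSeries.X ∣ (p : PowerSeries ℤ) := by
        rw [hp', Polynomial.coe_mul, Polynomial.coe_X]
        exact Dvd.intro _ rfl
      exact dvd_add hX1 hX2
    · have e1 : z i - (Polynomial.C ((ρ i : ℕ) : ℤ) * Polynomial.X - p ^ 2 :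
          Polynomial ℤ).eval (Y : ℤ) =
          -((z i - p.eval (Y : ℤ)) * (z i + p.eval (Y : ℤ))) := by
        rw [Polynomial.eval_sub, Polynomial.eval_mul, Polynomial.eval_C, Polynomial.eval_X,
          Polynomial.eval_pow]
        linear_combination hz
      rw [e1, dvd_neg, pow_succ]
      refine mul_dvd_mul h3 ?_
      have hX2 : q ∣ p.eval (Y : ℤ) := by
        rw [hp', Polynomial.eval_mul, Polynomial.eval_X]
        exact hqY.mul_right _
      exact dvd_add hqz hX2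

lemma rep_cong {ρ : ℕ → ℕ} {z : ℕ → ℤ} (hz : ∀ i, z i ^ 2 + z i = ρ i * (Y : ℤ))
    (hqY : q ∣ (Y : ℤ)) (hqz : ∀ i, q ∣ z i) {k : ℕ} : ∀ {H : ℕ} {x : PowerSeries ℤ × ℤ},
    Rep Y ρ z k H x → Cong q Y x := by
  induction k with
  | zero =>
    rintro H x ⟨f, _, rfl⟩
    exact cong_coe f
  | succ k ih =>
    rintro H x ⟨a, b, P, Q, h1, h2, _, rfl⟩
    exact cong_add (ih h1) (cong_mul (ih h2) (cong_zeta k (hz k) hqY (hqz k)))

lemma cong_dvd (hqY : q ∣ (Y : ℤ)) {x : PowerSeries ℤ × ℤ} (hx : Cong q Y x) (M : ℕ)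
    (h : PowerSeries.X ^ M ∣ x.1) : q ^ M ∣ x.2 := by
  obtain ⟨p, h1, h2⟩ := hx M
  have h3 : PowerSeries.X ^ M ∣ (p : PowerSeries ℤ) := by
    have := dvd_sub h h1
    simpa using this
  have h4 : Polynomial.X ^ M ∣ p := by
    rw [Polynomial.X_pow_dvd_iff]
    rw [PowerSeries.X_pow_dvd_iff] at h3
    intro d hd
    have := h3 d hd
    rwa [Polynomial.coeff_coe] at this
  obtain ⟨r, hr⟩ := h4
  have h5 : q ^ M ∣ p.eval (Y : ℤ) := by
    rw [hr, Polynomial.eval_mul, Polynomial.eval_pow, Polynomial.eval_X]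
    exact (pow_dvd_pow_of_dvd hqY M).mul_right _
  have := dvd_add h2 h5
  simpa using this

end Pool.Agent.FactLoc
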