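import Pool.Agent.FactLoc.Cong

/-!
# The main inequality
-/

namespace Pool.Agent.FactLoc

open Finset

noncomputable section

lemma KK_mono (ρ : ℕ → ℕ) {i j : ℕ} (h : i ≤ j) : KK ρ i ≤ KK ρ j := by
  induction j, h using Nat.le_induction with
  | base => exact le_rfl
  | succ j _ ih => exact ih.trans (KK_le_succ ρ j)

lemma zs_mem (ρ : ℕ → ℕ) {i k : ℕ} (h : i < k) : iota (zs (ρ i)) ∈ KK ρ k :=
  KK_mono ρ (by omega) (zs_mem_succ ρ i)

lemma prod_mem_KK (ρ : ℕ → ℕ) {k : ℕ} {I : Finset ℕ} (hI : I ⊆ range k) :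
    iota (∏ i ∈ I, zs (ρ i)) ∈ KK ρ k := by
  rw [map_prod]
  exact prod_mem (fun i hi => zs_mem ρ (mem_range.1 (hI hi)))

lemma sum_mem_KK (ρ : ℕ → ℕ) {k : ℕ} (β : Finset ℕ → Polynomial ℤ) :
    iota (∑ I ∈ (range k).powerset, (β I : PowerSeries ℤ) * ∏ i ∈ I, zs (ρ i)) ∈ KK ρ k := by
  rw [map_sum]
  refine sum_mem (fun I hI => ?_)
  rw [map_mul]
  exact (KK ρ k).mul_mem (K0_le_KK ρ k (iP_mem (β I))) (prod_mem_KK ρ (mem_powerset.1 hI))

/-- linear independence over `ℤ[X]` of the products of the `zs ρ_i` -/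
lemma li (ρ : ℕ → ℕ) : ∀ k : ℕ, (∀ i < k, 1 ≤ ρ i) → (∀ i j, i < j → j < k → ρ i ≠ ρ j) →
    ∀ β : Finset ℕ → Polynomial ℤ,
    ∑ I ∈ (range k).powerset, (β I : PowerSeries ℤ) * ∏ i ∈ I, zs (ρ i) = 0 →
    ∀ I ∈ (range k).powerset, β I = 0 := by
  intro k
  induction k with
  | zero =>
    intro _ _ β h I hI
    simp only [range_zero, powerset_empty, mem_singleton] at hI
    subst hI
    simp only [range_zero, powerset_empty, sum_singleton, prod_empty, mul_one] at h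
    exact Polynomial.coe_injective ℤ (by rw [h]; simp)
  | succ k ih =>
    intro hpos hinj β h I hI
    have hk : k ∉ range k := by simp
    rw [range_add_one, sum_powerset_insert hk] at h
    have e1 : ∑ t ∈ (range k).powerset, (β (insert k t) : PowerSeries ℤ) *
        ∏ i ∈ insert k t, zs (ρ i) =
        (∑ t ∈ (range k).powerset, ((fun t => β (insert k t)) t : PowerSeries ℤ) *
          ∏ i ∈ t, zs (ρ i)) * zs (ρ k) := by
      rw [sum_mul]
      apply sum_congr rfl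
      intro t ht
      have : k ∉ t := fun hkt => hk (mem_powerset.1 ht hkt)
      rw [prod_insert this]
      ring
    rw [e1] at h
    obtain ⟨h1, h2⟩ := lin_indep_step ρ k (fun i hi => hpos i (by omega))
      (fun i hi => hinj i k hi (by omega)) _ _ (sum_mem_KK ρ β)
      (sum_mem_KK ρ (fun t => β (insert k t))) h
    have hpos' : ∀ i < k, 1 ≤ ρ i := fun i hi => hpos i (by omega)
    have hinj' : ∀ i j, i < j → j < k → ρ i ≠ ρ j := fun i j hij hj => hinj i j hij (by omega)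
    rw [mem_powerset] at hI
    by_cases hkI : k ∈ I
    · have h3 := ih hpos' hinj' (fun t => β (insert k t)) h2 (I.erase k) (by
        rw [mem_powerset]
        intro i hi
        have h4 := mem_range.1 (hI (mem_of_mem_erase hi))
        have h5 := ne_of_mem_erase hi
        rw [mem_range]
        omega)
      rwa [insert_erase hkI] at h3
    · apply ih hpos' hinj' β h1 I
      rw [mem_powerset]
      intro i hi
      have h4 := mem_range.1 (hI hi)
      have h5 : i ≠ k := fun h => hkI (h ▸ hi)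
      rw [mem_range]
      omega

variable {Y : ℕ} {ρ : ℕ → ℕ} {z : ℕ → ℤ}

lemma rep_sum {ι : Type*} (s : Finset ι) (c : ι → ℕ) (x : ι → PowerSeries ℤ × ℤ) (k : ℕ)
    (h : ∀ i ∈ s, Rep Y ρ z k (c i) (x i)) : Rep Y ρ z k (∑ i ∈ s, c i) (∑ i ∈ s, x i) := by
  classical
  induction s using Finset.induction_on with
  | empty => exact rep_zero k _
  | insert a s ha ih =>
    rw [sum_insert ha, sum_insert ha]
    exact rep_add (h a (mem_insert_self _ _)) (ih (fun i hi => h i (mem_insert_of_mem hi)))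

lemma rep_one (k : ℕ) : Rep Y ρ z k 1 1 := by
  have := rep_nat (Y := Y) (ρ := ρ) (z := z) k 1
  simpa using this

section

variable (hz : ∀ i, z i ^ 2 + z i = ρ i * (Y : ℤ))
include hz

lemma rep_pow (k n : ℕ) {H : ℕ} {x : PowerSeries ℤ × ℤ} (h : Rep Y ρ z k H x) :
    Rep Y ρ z k (H ^ n) (x ^ n) := by
  induction n with
  | zero => simpa using rep_one k
  | succ n ih => rw [pow_succ, pow_succ]; exact rep_mul hz ih h

lemma rep_prod (k : ℕ) (I : Finset ℕ) (hI : I ⊆ range k) :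
    Rep Y ρ z k (∏ i ∈ I, (ρ i + 1)) (∏ i ∈ I, zeta ρ z i) := by
  classical
  induction I using Finset.induction_on with
  | empty => simpa using rep_one k
  | insert a s ha ih =>
    rw [prod_insert ha, prod_insert ha]
    exact rep_mul hz (rep_zeta (mem_range.1 (hI (mem_insert_self _ _))))
      (ih (fun i hi => hI (mem_insert_of_mem hi)))

end

/-- the monomial `X^h ∏_{i ∈ I} z_i` -/
def mon (Y : ℕ) (ρ : ℕ → ℕ) (z : ℕ → ℤ) (I : Finset ℕ) (h : ℕ) : PowerSeries ℤ × ℤ :=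
  TT Y ^ h * ∏ i ∈ I, zeta ρ z i

lemma mon_fst (I : Finset ℕ) (h : ℕ) :
    (mon Y ρ z I h).1 = PowerSeries.X ^ h * ∏ i ∈ I, zs (ρ i) := by
  simp [mon, TT, zeta, Prod.fst_prod]

lemma mon_snd (I : Finset ℕ) (h : ℕ) :
    (mon Y ρ z I h).2 = (Y : ℤ) ^ h * ∏ i ∈ I, z i := by
  simp [mon, TT, zeta, Prod.snd_prod]

lemma coeff_mon_le {R k M : ℕ} (hR : 1 ≤ R) (I : Finset ℕ) (hI : I ⊆ range k)
    (hρR : ∀ i < k, ρ i ≤ R) (h j : ℕ) (hj : j < M) :
    |PowerSeries.coeff j (mon Y ρ z I h).1| ≤ (4 * R : ℤ) ^ M * ((M : ℤ) + 1) ^ k := by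
  rw [mon_fst, PowerSeries.coeff_X_pow_mul']
  have h4R : (1 : ℤ) ≤ 4 * R := by
    have : (1 : ℤ) ≤ R := by exact_mod_cast hR
    linarith
  split_ifs with hle
  · refine (abs_coeff_prod_zs ρ R I (fun i hi => hρR i (mem_range.1 (hI hi))) _).trans ?_
    have hc : I.card ≤ k := by simpa using card_le_card hI
    apply mul_le_mul
    · exact pow_le_pow_right₀ h4R (by omega)
    · calc (((j - h : ℕ) : ℤ) + 1) ^ I.card ≤ ((M : ℤ) + 1) ^ I.card := by
            gcongr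
            omega
        _ ≤ ((M : ℤ) + 1) ^ k := pow_le_pow_right₀ (by omega) hc
    · positivity
    · positivity
  · rw [abs_zero]
    positivity

lemma z_sq_le {T z : ℤ} (hT : 1 ≤ T) (h : z ^ 2 + z = T) : z ^ 2 ≤ 4 * T := by
  rcases le_or_gt 0 z with h0 | h0
  · nlinarith
  · rcases le_or_gt z (-2) with h1 | h1
    · nlinarith
    · have : z = -1 := by omega
      subst this
      norm_num at h
      omega

lemma mon_snd_sq_le {R k B : ℕ} (hR : 1 ≤ R) (hY : 1 ≤ Y) (hz : ∀ i, z i ^ 2 + z i = ρ i * (Y : ℤ))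
    (hpos : ∀ i < k, 1 ≤ ρ i) (hρR : ∀ i < k, ρ i ≤ R) (I : Finset ℕ) (hI : I ⊆ range k)
    (h : ℕ) (hh : h < B) :
    (mon Y ρ z I h).2 ^ 2 ≤ (4 * R * Y : ℤ) ^ (2 * B + k) := by
  have hR' : (1 : ℤ) ≤ R := by exact_mod_cast hR
  have hY' : (1 : ℤ) ≤ Y := by exact_mod_cast hY
  have hRY : (1 : ℤ) ≤ R * Y := by nlinarith
  have h1 : ∀ i ∈ I, z i ^ 2 ≤ 4 * R * Y := by
    intro i hi
    have hik := mem_range.1 (hI hi)
    have h2 : (1 : ℤ) ≤ ρ i := by exact_mod_cast hpos i hik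
    have h3 : (ρ i : ℤ) ≤ R := by exact_mod_cast hρR i hik
    have h4 := z_sq_le (T := ρ i * Y) (by nlinarith) (hz i)
    have h5 : (ρ i : ℤ) * Y ≤ R * Y := mul_le_mul_of_nonneg_right h3 (by omega)
    linarith
  have h2 : ∏ i ∈ I, z i ^ 2 ≤ (4 * R * Y : ℤ) ^ k := by
    refine (prod_le_prod (fun i _ => sq_nonneg _) h1).trans ?_
    rw [prod_const]
    exact pow_le_pow_right₀ (by linarith) (by simpa using card_le_card hI)
  rw [mon_snd, mul_pow, ← prod_pow, ← pow_mul, pow_add]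
  apply mul_le_mul
  · calc (Y : ℤ) ^ (h * 2) ≤ (Y : ℤ) ^ (2 * B) := pow_le_pow_right₀ hY' (by omega)
      _ ≤ (4 * R * Y : ℤ) ^ (2 * B) := by
          gcongr
          nlinarith
  · exact h2
  · exact prod_nonneg (fun i _ => sq_nonneg _)
  · positivity

attribute [local instance] Matrix.seminormedAddCommGroup

theorem core (k B M R Y v Q : ℕ) (ρ : ℕ → ℕ) (z : ℕ → ℤ) (hR : 1 ≤ R) (hY : 1 ≤ Y)
    (hpos : ∀ i < k, 1 ≤ ρ i) (hρR : ∀ i < k, ρ i ≤ R) (hinj : ∀ i j, i < j → j < k → ρ i ≠ ρ j)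
    (hz : ∀ i, z i ^ 2 + z i = ρ i * (Y : ℤ)) (hvY : (2 : ℤ) ^ v ∣ (Y : ℤ))
    (hvz : ∀ i, (2 : ℤ) ^ v ∣ z i) (hM : 0 < M) (hMN : M < 2 ^ k * B)
    (hQ : (((2 : ℝ) ^ k * B) * ((4 * R : ℝ) ^ M * ((M : ℝ) + 1) ^ k)) ^
      ((M : ℝ) / ((2 : ℝ) ^ k * B - M)) < (Q : ℝ) + 1)
    (h1 : (2 ^ k * B * Q) ^ 2 * (4 * R * Y) ^ (2 * B + k) < (2 ^ (v * M)) ^ 2)
    (h2 : (2 ^ k * B * (Q * (R + 1) ^ k)) ^ 2 ^ k < Y) : False := by
  classical
  set β := ↥((range k).powerset) × Fin B with hβ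
  have hcard : Fintype.card β = 2 ^ k * B := by
    show Fintype.card (↥((range k).powerset) × Fin B) = 2 ^ k * B
    rw [Fintype.card_prod, Fintype.card_coe, card_powerset, card_range, Fintype.card_fin]
  have hI : ∀ b : β, (b.1 : Finset ℕ) ⊆ range k := fun b => mem_powerset.1 b.1.2
  set A : Matrix (Fin M) β ℤ := fun j b =>
    PowerSeries.coeff (j : ℕ) (mon Y ρ z (b.1 : Finset ℕ) (b.2 : ℕ)).1 with hA
  obtain ⟨t, ht0, hAt, htn⟩ := Int.Matrix.exists_ne_zero_int_vec_norm_le A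
    (by rw [hcard, Fintype.card_fin]; exact hMN) (by rw [Fintype.card_fin]; exact hM)
  rw [hcard, Fintype.card_fin] at htn
  push_cast at htn
  set G : ℝ := (4 * R : ℝ) ^ M * ((M : ℝ) + 1) ^ k with hG
  have hR1 : (1 : ℝ) ≤ R := by exact_mod_cast hR
  have hG1 : 1 ≤ G := by
    rw [hG]
    have e1 : (1 : ℝ) ≤ (4 * R : ℝ) ^ M := one_le_pow₀ (by linarith)
    have e2 : (1 : ℝ) ≤ ((M : ℝ) + 1) ^ k := one_le_pow₀ (by
      have : (0 : ℝ) ≤ M := Nat.cast_nonneg _
      linarith)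
    nlinarith
  have hAG : ‖A‖ ≤ G := by
    rw [Matrix.norm_le_iff (by linarith)]
    intro j b
    have := coeff_mon_le (Y := Y) (z := z) (ρ := ρ) (M := M) hR (b.1 : Finset ℕ) (hI b) hρR
      (b.2 : ℕ) (j : ℕ) j.2
    rw [Int.norm_eq_abs, hG]
    have h3 : ((|PowerSeries.coeff (j : ℕ) (mon Y ρ z (b.1 : Finset ℕ) (b.2 : ℕ)).1| : ℤ) : ℝ) ≤
        (((4 * R : ℤ) ^ M * ((M : ℤ) + 1) ^ k : ℤ) : ℝ) := by exact_mod_cast this
    push_cast at h3
    exact h3
  have hMN' : (M : ℝ) < (2 : ℝ) ^ k * B := by exact_mod_cast hMN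
  have htQ : ∀ b, (t b).natAbs ≤ Q := by
    intro b
    have h3 : ‖t b‖ ≤ ‖t‖ := norm_le_pi_norm t b
    have h4 : ‖t‖ < (Q : ℝ) + 1 := by
      refine lt_of_le_of_lt htn (lt_of_le_of_lt ?_ hQ)
      apply Real.rpow_le_rpow
      · positivity
      · gcongr
        exact max_le hG1 hAG
      · apply div_nonneg (Nat.cast_nonneg _)
        linarith
    have h5 : ((t b).natAbs : ℝ) < (Q : ℝ) + 1 := by
      have : ((t b).natAbs : ℝ) = ‖t b‖ := by
        rw [Int.norm_eq_abs, ← Int.cast_abs, Int.abs_eq_natAbs]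
        simp
      rw [this]
      exact lt_of_le_of_lt h3 h4
    have h6 : (t b).natAbs < Q + 1 := by exact_mod_cast h5
    omega
  -- the auxiliary element
  set x : PowerSeries ℤ × ℤ := ∑ b : β, ((t b : ℤ) : PowerSeries ℤ × ℤ) *
    mon Y ρ z (b.1 : Finset ℕ) (b.2 : ℕ) with hx
  have hxrep : Rep Y ρ z k (2 ^ k * B * (Q * (R + 1) ^ k)) x := by
    have h3 : Rep Y ρ z k (∑ b : β, Q * (R + 1) ^ k) x := by
      apply rep_sum
      intro b _
      have h4 : Rep Y ρ z k ((t b).natAbs * (1 ^ (b.2 : ℕ) * ∏ i ∈ (b.1 : Finset ℕ), (ρ i + 1)))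
          (((t b : ℤ) : PowerSeries ℤ × ℤ) * mon Y ρ z (b.1 : Finset ℕ) (b.2 : ℕ)) :=
        rep_mul hz (rep_int k (t b)) (rep_mul hz (rep_pow hz k _ (rep_T k))
          (rep_prod hz k _ (hI b)))
      refine rep_mono h4 ?_
      rw [one_pow, one_mul]
      refine Nat.mul_le_mul (htQ b) ?_
      calc ∏ i ∈ (b.1 : Finset ℕ), (ρ i + 1) ≤ ∏ i ∈ (b.1 : Finset ℕ), (R + 1) := by
            apply prod_le_prod' 
            intro i hi
            have := hρR i (mem_range.1 (hI b hi))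
            omega
        _ = (R + 1) ^ (b.1 : Finset ℕ).card := by rw [prod_const]
        _ ≤ (R + 1) ^ k := Nat.pow_le_pow_right (by omega) (by simpa using card_le_card (hI b))
    rw [sum_const, card_univ, hcard, smul_eq_mul] at h3
    exact h3
  have hdvd : ((2 : ℤ) ^ v) ^ M ∣ x.2 := by
    apply cong_dvd hvY (rep_cong hz hvY hvz hxrep) M
    rw [PowerSeries.X_pow_dvd_iff]
    intro j hj
    have h3 := congrFun hAt ⟨j, hj⟩
    rw [hx, Prod.fst_sum, map_sum]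
    rw [Matrix.mulVec, dotProduct] at h3
    simp only [Pi.zero_apply] at h3
    rw [← h3]
    apply sum_congr rfl
    intro b _
    rw [Prod.fst_mul, Prod.fst_intCast, hA]
    have : ((t b : ℤ) : PowerSeries ℤ) = PowerSeries.C (t b) :=
      (eq_intCast (PowerSeries.C (R := ℤ)) (t b)).symm
    rw [this, PowerSeries.coeff_C_mul]
    ring
  -- the size of `x.2`
  have hsize : x.2 ^ 2 ≤ (((2 ^ k * B * Q) ^ 2 * (4 * R * Y) ^ (2 * B + k) : ℕ) : ℤ) := by
    have h3 : x.2 = ∑ b : β, t b * (mon Y ρ z (b.1 : Finset ℕ) (b.2 : ℕ)).2 := by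
      rw [hx, Prod.snd_sum]
      simp
    rw [h3]
    refine (sum_mul_sq_le_sq_mul_sq univ (fun b => t b)
      (fun b => (mon Y ρ z (b.1 : Finset ℕ) (b.2 : ℕ)).2)).trans ?_
    have h4 : ∑ b : β, t b ^ 2 ≤ (2 ^ k * B : ℕ) * (Q : ℤ) ^ 2 := by
      have : ∀ b ∈ (univ : Finset β), t b ^ 2 ≤ (Q : ℤ) ^ 2 := by
        intro b _
        rw [sq_le_sq, Nat.abs_cast, Int.abs_eq_natAbs]
        exact_mod_cast htQ b
      refine (sum_le_sum this).trans ?_
      rw [sum_const, card_univ, hcard, nsmul_eq_mul]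
    have h5 : ∑ b : β, (mon Y ρ z (b.1 : Finset ℕ) (b.2 : ℕ)).2 ^ 2 ≤
        (2 ^ k * B : ℕ) * (4 * R * Y : ℤ) ^ (2 * B + k) := by
      have : ∀ b ∈ (univ : Finset β), (mon Y ρ z (b.1 : Finset ℕ) (b.2 : ℕ)).2 ^ 2 ≤
          (4 * R * Y : ℤ) ^ (2 * B + k) := by
        intro b _
        exact mon_snd_sq_le hR hY hz hpos hρR _ (hI b) _ b.2.2
      refine (sum_le_sum this).trans ?_
      rw [sum_const, card_univ, hcard, nsmul_eq_mul]
    refine (mul_le_mul h4 h5 (sum_nonneg (fun b _ => sq_nonneg _)) (by positivity)).trans ?_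
    apply le_of_eq
    push_cast
    ring
  have hx2 : x.2 = 0 := by
    by_contra hne
    rw [← pow_mul] at hdvd
    have h3 : (2 : ℤ) ^ (v * M) ≤ |x.2| := by
      have := Int.le_of_dvd (abs_pos.2 hne) ((dvd_abs _ _).2 hdvd)
      exact this
    have h4 : ((2 : ℤ) ^ (v * M)) ^ 2 ≤ x.2 ^ 2 := by
      rw [← sq_abs x.2]
      exact pow_le_pow_left₀ (by positivity) h3 2
    have h5 : ((((2 ^ (v * M)) ^ 2 : ℕ)) : ℤ) ≤
        (((2 ^ k * B * Q) ^ 2 * (4 * R * Y) ^ (2 * B + k) : ℕ) : ℤ) := by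
      refine le_trans ?_ (h4.trans hsize)
      push_cast
      exact le_rfl
    have h6 := Int.ofNat_le.1 h5
    omega
  have hx1 : x.1 ≠ 0 := by
    intro h0
    apply ht0
    -- coefficients as polynomials
    set γ : Finset ℕ → Polynomial ℤ := fun I =>
      if hI : I ∈ (range k).powerset then
        ∑ h : Fin B, Polynomial.C (t (⟨I, hI⟩, h)) * Polynomial.X ^ (h : ℕ) else 0 with hγ
    have h3 : ∑ I ∈ (range k).powerset, (γ I : PowerSeries ℤ) * ∏ i ∈ I, zs (ρ i) = 0 := by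
      rw [← h0, hx, Prod.fst_sum, ← univ_product_univ, sum_product]
      rw [← sum_coe_sort ((range k).powerset)
        (fun I => (γ I : PowerSeries ℤ) * ∏ i ∈ I, zs (ρ i))]
      apply sum_congr rfl
      rintro ⟨I, hI⟩ _
      have : γ I = ∑ h : Fin B, Polynomial.C (t (⟨I, hI⟩, h)) * Polynomial.X ^ (h : ℕ) := by
        rw [hγ]
        simp only [dif_pos hI]
      simp only [this]
      rw [← Polynomial.coeToPowerSeries.ringHom_apply, map_sum, sum_mul]
      apply sum_congr rfl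
      intro h _
      rw [Prod.fst_mul, mon_fst, Prod.fst_intCast, Polynomial.coeToPowerSeries.ringHom_apply,
        Polynomial.coe_mul, Polynomial.coe_C, Polynomial.coe_pow, Polynomial.coe_X]
      have : ((t (⟨I, hI⟩, h) : ℤ) : PowerSeries ℤ) = PowerSeries.C (t (⟨I, hI⟩, h)) :=
        (eq_intCast (PowerSeries.C (R := ℤ)) _).symm
      rw [this]
      ring
    have h4 := li ρ k hpos hinj γ h3
    funext b
    obtain ⟨⟨I, hI⟩, h⟩ := b
    have h5 := h4 I hI
    rw [hγ] at h5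
    simp only [dif_pos hI] at h5
    have h6 := congrArg (fun p => Polynomial.coeff p (h : ℕ)) h5
    simp only [Polynomial.finsetSum_coeff, Polynomial.coeff_C_mul, Polynomial.coeff_X_pow,
      Polynomial.coeff_zero] at h6
    rw [sum_eq_single h] at h6
    · simpa using h6
    · intro h' _ hne
      rw [if_neg (fun e => hne (Fin.ext e.symm)), mul_zero]
    · intro hn
      exact absurd (mem_univ _) hn
  have := rep_key hz hY k hpos hinj _ x hxrep hx1 hx2
  omega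

end

end Pool.Agent.FactLoc
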