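import Mathlib

/-!
# Multiquadratic towers: `φ_j ∉ K_0(φ_0, …, φ_{j-1})`
-/

namespace Pool.Agent.FactLoc

open Finset

section Ext
variable {E : Type*} [Field E]

/-- the field `K(φ)` for `φ² ∈ K` -/
def extK (K : Subfield E) (φ : E) (h : φ ^ 2 ∈ K) : Subfield E where
  carrier := {x | ∃ α ∈ K, ∃ β ∈ K, x = α + β * φ}
  mul_mem' := by
    rintro x y ⟨a, ha, b, hb, rfl⟩ ⟨c, hc, d, hd, rfl⟩
    refine ⟨a * c + b * d * φ ^ 2, ?_, a * d + b * c, ?_, by ring⟩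
    · exact K.add_mem (K.mul_mem ha hc) (K.mul_mem (K.mul_mem hb hd) h)
    · exact K.add_mem (K.mul_mem ha hd) (K.mul_mem hb hc)
  one_mem' := ⟨1, K.one_mem, 0, K.zero_mem, by ring⟩
  add_mem' := by
    rintro x y ⟨a, ha, b, hb, rfl⟩ ⟨c, hc, d, hd, rfl⟩
    exact ⟨a + c, K.add_mem ha hc, b + d, K.add_mem hb hd, by ring⟩
  zero_mem' := ⟨0, K.zero_mem, 0, K.zero_mem, by ring⟩
  neg_mem' := by
    rintro x ⟨a, ha, b, hb, rfl⟩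
    exact ⟨-a, K.neg_mem ha, -b, K.neg_mem hb, by ring⟩
  inv_mem' := by
    rintro x ⟨a, ha, b, hb, rfl⟩
    by_cases hx : a + b * φ = 0
    · rw [hx, inv_zero]
      exact ⟨0, K.zero_mem, 0, K.zero_mem, by ring⟩
    by_cases hc : a - b * φ = 0
    · have hab : b * φ = a := by linear_combination -hc
      refine ⟨(a + a)⁻¹, K.inv_mem (K.add_mem ha ha), 0, K.zero_mem, ?_⟩
      rw [hab]
      ring
    · have hd : a ^ 2 - b ^ 2 * φ ^ 2 ≠ 0 := by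
        have : a ^ 2 - b ^ 2 * φ ^ 2 = (a + b * φ) * (a - b * φ) := by ring
        rw [this]
        exact mul_ne_zero hx hc
      have hdK : a ^ 2 - b ^ 2 * φ ^ 2 ∈ K :=
        K.sub_mem (K.pow_mem ha 2) (K.mul_mem (K.pow_mem hb 2) h)
      refine ⟨a * (a ^ 2 - b ^ 2 * φ ^ 2)⁻¹, K.mul_mem ha (K.inv_mem hdK),
        -b * (a ^ 2 - b ^ 2 * φ ^ 2)⁻¹, K.mul_mem (K.neg_mem hb) (K.inv_mem hdK), ?_⟩
      have e1 : a * (a ^ 2 - b ^ 2 * φ ^ 2)⁻¹ + -b * (a ^ 2 - b ^ 2 * φ ^ 2)⁻¹ * φ =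
          (a - b * φ) * (a ^ 2 - b ^ 2 * φ ^ 2)⁻¹ := by ring
      rw [e1]
      have e2 : a ^ 2 - b ^ 2 * φ ^ 2 = (a + b * φ) * (a - b * φ) := by ring
      rw [e2, mul_inv]
      field_simp

lemma mem_extK {K : Subfield E} {φ : E} {h : φ ^ 2 ∈ K} {x : E} :
    x ∈ extK K φ h ↔ ∃ α ∈ K, ∃ β ∈ K, x = α + β * φ := Iff.rfl

lemma le_extK {K : Subfield E} {φ : E} {h : φ ^ 2 ∈ K} : K ≤ extK K φ h :=
  fun x hx => ⟨x, hx, 0, K.zero_mem, by ring⟩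

lemma self_mem_extK {K : Subfield E} {φ : E} {h : φ ^ 2 ∈ K} : φ ∈ extK K φ h :=
  ⟨0, K.zero_mem, 1, K.one_mem, by ring⟩

/-- the tower `K_0 ⊂ K_0(φ_0) ⊂ K_0(φ_0, φ_1) ⊂ …` -/
def chain (K0 : Subfield E) (φ : ℕ → E) (h : ∀ i, φ i ^ 2 ∈ K0) :
    ℕ → {K : Subfield E // K0 ≤ K}
  | 0 => ⟨K0, le_rfl⟩
  | j + 1 => ⟨extK (chain K0 φ h j).1 (φ j) ((chain K0 φ h j).2 (h j)),
      (chain K0 φ h j).2.trans le_extK⟩

variable {K0 : Subfield E} {φ : ℕ → E} (h : ∀ i, φ i ^ 2 ∈ K0)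

lemma chain_succ_mem {j : ℕ} {x : E} :
    x ∈ (chain K0 φ h (j + 1)).1 ↔
      ∃ α ∈ (chain K0 φ h j).1, ∃ β ∈ (chain K0 φ h j).1, x = α + β * φ j := Iff.rfl

lemma chain_le_succ (j : ℕ) : (chain K0 φ h j).1 ≤ (chain K0 φ h (j + 1)).1 :=
  le_extK (h := (chain K0 φ h j).2 (h j))

lemma phi_mem_chain (j : ℕ) : φ j ∈ (chain K0 φ h (j + 1)).1 :=
  self_mem_extK (h := (chain K0 φ h j).2 (h j))

lemma sq_chain (h2 : (2 : E) ≠ 0) : ∀ j : ℕ, ∀ a ∈ K0,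
    (∃ x ∈ (chain K0 φ h j).1, x ^ 2 = a) →
      ∃ I ⊆ range j, ∃ y ∈ K0, y ^ 2 = a * ∏ i ∈ I, φ i ^ 2
  | 0, a, _, ⟨x, hx, hxa⟩ => ⟨∅, by simp, x, hx, by simp [hxa]⟩
  | j + 1, a, ha, ⟨x, hx, hxa⟩ => by
    obtain ⟨α, hα, β, hβ, rfl⟩ := hx
    set K := (chain K0 φ h j).1 with hK
    have hK0 : K0 ≤ K := (chain K0 φ h j).2
    by_cases hα0 : α = 0
    · -- `a φ_j² = (β φ_j²)²`
      have h1 : (β * φ j ^ 2) ^ 2 = a * φ j ^ 2 := by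
        rw [← hxa, hα0]; ring
      obtain ⟨I, hI, y, hy, hyI⟩ := sq_chain h2 j (a * φ j ^ 2) (K0.mul_mem ha (h j))
        ⟨β * φ j ^ 2, K.mul_mem hβ (hK0 (h j)), h1⟩
      refine ⟨insert j I, ?_, y, hy, ?_⟩
      · rw [range_add_one]
        exact insert_subset_insert _ hI
      · rw [prod_insert (fun hj => by simpa using hI hj), hyI]
        ring
    by_cases hβ0 : β = 0
    · have h1 : α ^ 2 = a := by rw [← hxa, hβ0]; ring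
      obtain ⟨I, hI, y, hy, hyI⟩ := sq_chain h2 j a ha ⟨α, hα, h1⟩
      exact ⟨I, hI.trans (range_subset_range.2 (by omega)), y, hy, hyI⟩
    -- otherwise `φ_j ∈ K`
    have hφ : φ j ∈ K := by
      have h1 : φ j = (a - α ^ 2 - β ^ 2 * φ j ^ 2) * (2 * α * β)⁻¹ := by
        have h3 : (2 * α * β) ≠ 0 := mul_ne_zero (mul_ne_zero h2 hα0) hβ0
        rw [eq_mul_inv_iff_mul_eq₀ h3, ← hxa]
        ring
      rw [h1]
      have h2K : (2 : E) ∈ K := by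
        have := K.add_mem K.one_mem K.one_mem
        rwa [one_add_one_eq_two] at this
      exact K.mul_mem (K.sub_mem (K.sub_mem (hK0 ha) (K.pow_mem hα 2))
        (K.mul_mem (K.pow_mem hβ 2) (hK0 (h j))))
        (K.inv_mem (K.mul_mem (K.mul_mem h2K hα) hβ))
    obtain ⟨I, hI, y, hy, hyI⟩ := sq_chain h2 j a ha
      ⟨α + β * φ j, K.add_mem hα (K.mul_mem hβ hφ), hxa⟩
    exact ⟨I, hI.trans (range_subset_range.2 (by omega)), y, hy, hyI⟩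

/-- `φ_j` does not lie in the `j`-th field of the tower if no product
`φ_j² ∏_{i ∈ I} φ_i²` (`I ⊆ {0, …, j-1}`) is a square in `K_0`. -/
lemma not_mem_chain (h2 : (2 : E) ≠ 0) (j : ℕ)
    (hns : ∀ I ⊆ range j, ∀ y ∈ K0, y ^ 2 ≠ φ j ^ 2 * ∏ i ∈ I, φ i ^ 2) :
    φ j ∉ (chain K0 φ h j).1 := by
  intro hj
  obtain ⟨I, hI, y, hy, hyI⟩ := sq_chain h h2 j (φ j ^ 2) (h j) ⟨φ j, hj, rfl⟩
  exact hns I hI y hy hyI

end Ext

end Pool.Agent.FactLoc
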