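import Mathlib

/-!
# The numerical inequalities
-/

namespace Pool.Agent.FactLoc

/-- the real form of the numerical inequalities -/
lemma num_real (N l lam k P u a1 a2 a3 a4 M LY v : ℝ)
    (hlam : 10 ^ 6 ≤ lam) (hl : lam ≤ l) (hN : l ^ 4 ≤ N) (hk1 : 1 ≤ k) (hk : k ≤ 3 * lam)
    (hP1 : 2 * l < P) (hP2 : P ≤ 4 * l) (hu0 : 0 ≤ u) (hu : u * l * lam ^ 2 ≤ N)
    (ha1 : a1 ≤ P * (20 * k)) (ha2 : a2 ≤ 2 + 2 * u) (ha3 : a3 ≤ M) (ha4 : a4 ≤ 1 + 2 * u)
    (hM : M = P * (18 * k)) (hLY1 : N * l / 2 ≤ LY) (hLY2 : LY ≤ 1.05 * (N * l))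
    (hv : 0.99 * N ≤ v) :
    (a1 + 9 * (a1 + (M * a2 + k * a3)) + 20.5 * k * (2 + 2 * u + LY) < v * M * 0.69) ∧
    P * (a1 + (9 * (a1 + (M * a2 + k * a3)) + k * a4)) < LY := by
  have hlam0 : 0 < lam := by linarith
  have hl0 : 0 < l := by linarith
  have hl1 : 1 ≤ l := by linarith
  have hlam1 : 1 ≤ lam := by linarith
  have hP0 : 0 < P := by linarith
  have hk0 : 0 < k := by linarith
  obtain ⟨x, hx⟩ : ∃ x, x = N / lam := ⟨_, rfl⟩
  have hxN : x * lam = N := by rw [hx]; field_simp
  have hll : lam * lam ≤ l * l := mul_le_mul hl hl hlam0.le hl0.le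
  have hl2 : 1 ≤ l * l := by nlinarith
  have hl3 : l * l * l ≤ l ^ 4 := by
    have : l ^ 4 = (l * l * l) * l := by ring
    rw [this]
    exact le_mul_of_one_le_right (by positivity) hl1
  -- `lam^2 * l ≤ x`
  have h1 : lam ^ 2 * l ≤ x := by
    have : lam ^ 2 * l * lam ≤ N := by
      calc lam ^ 2 * l * lam = (lam * lam) * (l * lam) := by ring
        _ ≤ (l * l) * (l * l) := by
            apply mul_le_mul hll _ (by positivity) (by positivity)
            exact mul_le_mul_of_nonneg_left hl hl0.le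
        _ = l ^ 4 := by ring
        _ ≤ N := hN
    rw [← hxN] at this
    exact le_of_mul_le_mul_right this hlam0
  have h2 : lam * l ≤ x := by
    refine le_trans ?_ h1
    have : lam ^ 2 * l = lam * (lam * l) := by ring
    rw [this]
    exact le_mul_of_one_le_left (by positivity) hlam1
  have h3 : lam ≤ x := by
    refine le_trans ?_ h2
    exact le_mul_of_one_le_right hlam0.le hl1
  have h4 : lam * l * u ≤ x := by
    have : lam * l * u * lam ≤ x * lam := by rw [hxN]; linarith [hu, (by ring : u * l * lam ^ 2 = lam * l * u * lam)]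
    exact le_of_mul_le_mul_right this hlam0
  have h5 : lam * u ≤ x := by
    refine le_trans ?_ h4
    have : lam * l * u = l * (lam * u) := by ring
    rw [this]
    exact le_mul_of_one_le_left (by positivity) hl1
  have hx0 : 0 < x := lt_of_lt_of_le hlam0 h3
  have hPk : P * k ≤ 12 * (lam * l) := by
    calc P * k ≤ (4 * l) * (3 * lam) := mul_le_mul hP2 hk hk0.le (by positivity)
      _ = 12 * (lam * l) := by ring
  have hM1 : M ≤ 216 * (lam * l) := by rw [hM]; nlinarith
  have hM0 : 0 ≤ M := by rw [hM]; positivity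
  have b1 : a1 ≤ 240 * x := by nlinarith
  have b2 : M * a2 ≤ 864 * x := by
    calc M * a2 ≤ M * (2 + 2 * u) := mul_le_mul_of_nonneg_left ha2 hM0
      _ ≤ 216 * (lam * l) * (2 + 2 * u) := mul_le_mul_of_nonneg_right hM1 (by positivity)
      _ = 432 * (lam * l) + 432 * (lam * l * u) := by ring
      _ ≤ 864 * x := by linarith
  have b3 : k * a3 ≤ 648 * x := by
    calc k * a3 ≤ k * M := mul_le_mul_of_nonneg_left ha3 hk0.le
      _ ≤ (3 * lam) * (216 * (lam * l)) := mul_le_mul hk hM1 hM0 (by positivity)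
      _ = 648 * (lam ^ 2 * l) := by ring
      _ ≤ 648 * x := by linarith
  have b4 : k * a4 ≤ 9 * x := by
    calc k * a4 ≤ k * (1 + 2 * u) := mul_le_mul_of_nonneg_left ha4 hk0.le
      _ ≤ (3 * lam) * (1 + 2 * u) := mul_le_mul_of_nonneg_right hk (by positivity)
      _ = 3 * lam + 6 * (lam * u) := by ring
      _ ≤ 9 * x := by linarith
  have hN0 : 0 < N := by rw [← hxN]; positivity
  -- `x ≤ N / 10^6`
  have hx6 : 10 ^ 6 * x ≤ N := by
    rw [← hxN, mul_comm x lam]
    exact mul_le_mul_of_nonneg_right hlam hx0.le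
  have hNl : N ≤ N * l := le_mul_of_one_le_right hN0.le hl1
  refine ⟨?_, ?_⟩
  · -- first
    have c1 : a1 + 9 * (a1 + (M * a2 + k * a3)) ≤ 0.02 * N := by linarith
    have hl6 : 10 ^ 6 ≤ l := hlam.trans hl
    have hNl6 : 10 ^ 6 * N ≤ N * l := by nlinarith
    have c2 : 2 + 2 * u ≤ 0.01 * (N * l) := by
      have hu' : u ≤ x := by
        refine le_trans ?_ h5
        exact le_mul_of_one_le_left hu0 hlam1
      have : (2 : ℝ) ≤ 2 * x := by linarith
      nlinarith
    have c3 : 20.5 * k * (2 + 2 * u + LY) ≤ 20.5 * k * (1.06 * (N * l)) := by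
      apply mul_le_mul_of_nonneg_left _ (by positivity)
      linarith
    have c4 : 0.99 * N * (2 * l * (18 * k)) * 0.69 ≤ v * M * 0.69 := by
      apply mul_le_mul_of_nonneg_right _ (by norm_num)
      rw [hM]
      apply mul_le_mul hv _ (by positivity) (by linarith)
      exact mul_le_mul_of_nonneg_right hP1.le (by positivity)
    have c5 : 0.02 * N ≤ 0.02 * (k * (N * l)) := by
      have : N * l ≤ k * (N * l) := le_mul_of_one_le_left (by positivity) hk1
      linarith
    have c6 : 0 < k * (N * l) := by positivity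
    have c7 : 0.99 * N * (2 * l * (18 * k)) * 0.69 = 24.5916 * (k * (N * l)) := by ring
    have c8 : 20.5 * k * (1.06 * (N * l)) = 21.73 * (k * (N * l)) := by ring
    rw [c7] at c4
    rw [c8] at c3
    linarith
  · have c1 : a1 + (9 * (a1 + (M * a2 + k * a3)) + k * a4) ≤ 16017 * x := by linarith
    calc P * (a1 + (9 * (a1 + (M * a2 + k * a3)) + k * a4)) ≤ P * (16017 * x) :=
          mul_le_mul_of_nonneg_left c1 hP0.le
      _ ≤ (4 * l) * (16017 * x) := mul_le_mul_of_nonneg_right hP2 (by positivity)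
      _ = 64068 * l * x := by ring
      _ < N * l / 2 := by
          have : l * (10 ^ 6 * x) ≤ l * N := mul_le_mul_of_nonneg_left hx6 hl0.le
          have hlx : 0 < l * x := by positivity
          nlinarith
      _ ≤ LY := hLY1

end Pool.Agent.FactLoc
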