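import Pool.Agent.FactLoc.Core
import Pool.Agent.FactLoc.Numeric

/-!
# Few solutions of `n! = a (a + 1)` in short intervals
-/

namespace Pool.Agent.FactLoc

open Finset

lemma factorial_add_le (n j : ℕ) : (n + j).factorial ≤ n.factorial * (n + j) ^ j := by
  rw [← Nat.factorial_mul_ascFactorial]
  exact Nat.mul_le_mul_left _ (Nat.ascFactorial_le_pow_add n j)

lemma two_pow_dvd_factorial (n : ℕ) (hn : n ≠ 0) :
    2 ^ (n - (Nat.log 2 n + 1)) ∣ n.factorial := by
  have : Fact (Nat.Prime 2) := ⟨Nat.prime_two⟩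
  rw [padicValNat_dvd_iff_le (Nat.factorial_ne_zero n)]
  have h := sub_one_mul_padicValNat_factorial (p := 2) n
  have h2 : (Nat.digits 2 n).sum ≤ Nat.log 2 n + 1 := by
    have h3 : (Nat.digits 2 n).sum ≤ (Nat.digits 2 n).length * 1 := by
      apply List.sum_le_card_nsmul
      intro d hd
      have := Nat.digits_lt_base (by norm_num : 1 < 2) hd
      omega
    rw [Nat.length_digits 2 n (by norm_num) hn] at h3
    omega
  omega

lemma exists_z {n a v : ℕ} (hsol : n.factorial = a * (a + 1)) (hv : 2 ^ v ∣ n.factorial) :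
    ∃ z : ℤ, z ^ 2 + z = (n.factorial : ℤ) ∧ (2 : ℤ) ^ v ∣ z := by
  rw [hsol] at hv
  rcases Nat.even_or_odd a with he | ho
  · refine ⟨a, ?_, ?_⟩
    · rw [hsol]; push_cast; ring
    · have hc : Nat.Coprime (2 ^ v) (a + 1) := by
        apply Nat.Coprime.pow_left
        exact (Nat.coprime_two_left).2 he.add_one
      exact_mod_cast hc.dvd_of_dvd_mul_right hv
  · refine ⟨-((a : ℤ) + 1), ?_, ?_⟩
    · rw [hsol]; push_cast; ring
    · have hc : Nat.Coprime (2 ^ v) a := by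
        apply Nat.Coprime.pow_left
        exact (Nat.coprime_two_left).2 ho
      have := hc.dvd_of_dvd_mul_left hv
      rw [dvd_neg]
      exact_mod_cast this

/-- the parameters -/
def QQ (k R : ℕ) : ℕ :=
  ((2 ^ k * (20 * k)) * ((4 * R) ^ (2 ^ k * (18 * k)) * (2 ^ k * (18 * k) + 1) ^ k)) ^ 9

/-- `k` solutions in a window contradict the two inequalities -/
theorem no_window (N h k : ℕ) (n a : ℕ → ℕ) (hk : 1 ≤ k) (hN : 1 ≤ N) (hhN : h ≤ N)
    (hn : ∀ i < k, N ≤ n i ∧ n i ≤ N + h) (hmono : ∀ i j, i < j → j < k → n i < n j)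
    (hsol : ∀ i < k, (n i).factorial = a i * (a i + 1))
    (h1 : (2 ^ k * (20 * k) * QQ k ((2 * N) ^ h)) ^ 2 *
      (4 * (2 * N) ^ h * (n 0).factorial) ^ (2 * (20 * k) + k) <
        (2 ^ ((n 0 - (Nat.log 2 (n 0) + 1)) * (2 ^ k * (18 * k)))) ^ 2)
    (h2 : (2 ^ k * (20 * k) * (QQ k ((2 * N) ^ h) * ((2 * N) ^ h + 1) ^ k)) ^ 2 ^ k <
      (n 0).factorial) : False := by
  classical
  set Y := (n 0).factorial with hY
  set v := n 0 - (Nat.log 2 (n 0) + 1) with hv
  set R := (2 * N) ^ h with hR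
  have hY1 : 1 ≤ Y := Nat.factorial_pos _
  have hn0 : n 0 ≠ 0 := by have := (hn 0 (by omega)).1; omega
  have hvY : 2 ^ v ∣ Y := two_pow_dvd_factorial (n 0) hn0
  have hle : ∀ i < k, n 0 ≤ n i := by
    intro i hi
    rcases Nat.eq_zero_or_pos i with rfl | hi0
    · exact le_rfl
    · exact (hmono 0 i hi0 hi).le
  have hdvd : ∀ i < k, Y ∣ (n i).factorial := fun i hi => Nat.factorial_dvd_factorial (hle i hi)
  have hz0 : ∀ i < k, ∃ z : ℤ, z ^ 2 + z = ((n i).factorial : ℤ) ∧ (2 : ℤ) ^ v ∣ z :=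
    fun i hi => exists_z (hsol i hi) (hvY.trans (hdvd i hi))
  set ρ : ℕ → ℕ := fun i => if i < k then (n i).factorial / Y else 0 with hρ
  set z : ℕ → ℤ := fun i => if hi : i < k then (hz0 i hi).choose else 0 with hz
  have hρY : ∀ i < k, ρ i * Y = (n i).factorial := by
    intro i hi
    rw [hρ]
    simp only [if_pos hi]
    exact Nat.div_mul_cancel (hdvd i hi)
  refine core k (20 * k) (2 ^ k * (18 * k)) R Y v (QQ k R) ρ z ?_ hY1 ?_ ?_ ?_ ?_ ?_ ?_ ?_ ?_ ?_
    ?_ ?_
  · exact Nat.one_le_pow _ _ (by omega)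
  · intro i hi
    have h3 := hρY i hi
    have h4 := Nat.factorial_pos (n i)
    rcases Nat.eq_zero_or_pos (ρ i) with h5 | h5
    · rw [h5] at h3; omega
    · exact h5
  · intro i hi
    have h3 := hρY i hi
    have h4 : (n i).factorial ≤ Y * R := by
      have h5 := factorial_add_le (n 0) (n i - n 0)
      have h6 : n 0 + (n i - n 0) = n i := by have := hle i hi; omega
      rw [h6] at h5
      refine h5.trans (Nat.mul_le_mul_left _ ?_)
      have h7 := (hn i hi).2
      have h8 := (hn 0 (by omega)).1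
      calc n i ^ (n i - n 0) ≤ (2 * N) ^ (n i - n 0) := Nat.pow_le_pow_left (by omega) _
        _ ≤ (2 * N) ^ h := Nat.pow_le_pow_right (by omega) (by omega)
    have h5 : ρ i * Y ≤ R * Y := by rw [h3, mul_comm R Y]; exact h4
    exact Nat.le_of_mul_le_mul_right h5 hY1
  · intro i j hij hj he
    have h3 := hρY i (by omega)
    have h4 := hρY j hj
    rw [he, h4] at h3
    have h5 := hmono i j hij hj
    have h6 : 0 < n i := by have := (hn i (by omega)).1; omega
    have h7 := (Nat.factorial_lt h6).2 h5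
    omega
  · intro i
    by_cases hi : i < k
    · have h3 := (hz0 i hi).choose_spec.1
      have h4 : z i = (hz0 i hi).choose := by rw [hz]; simp only [dif_pos hi]
      rw [h4, h3, ← hρY i hi]
      push_cast
      ring
    · have h4 : z i = 0 := by rw [hz]; simp only [dif_neg hi]
      have h5 : ρ i = 0 := by rw [hρ]; simp only [if_neg hi]
      rw [h4, h5]; simp
  · exact_mod_cast hvY
  · intro i
    by_cases hi : i < k
    · have h4 : z i = (hz0 i hi).choose := by rw [hz]; simp only [dif_pos hi]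
      rw [h4]
      exact (hz0 i hi).choose_spec.2
    · have h4 : z i = 0 := by rw [hz]; simp only [dif_neg hi]
      rw [h4]
      exact dvd_zero _
  · positivity
  · exact Nat.mul_lt_mul_of_pos_left (by omega) (by positivity)
  · have hk' : (0 : ℝ) < k := by exact_mod_cast (by omega : 0 < k)
    have e1 : (((2 ^ k * (18 * k) : ℕ)) : ℝ) / ((2 : ℝ) ^ k * ((20 * k : ℕ) : ℝ) -
        ((2 ^ k * (18 * k) : ℕ) : ℝ)) = ((9 : ℕ) : ℝ) := by
      push_cast
      have : (2 : ℝ) ^ k * (20 * k) - 2 ^ k * (18 * k) = 2 ^ k * (2 * k) := by ring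
      rw [this]
      field_simp
      norm_num
    rw [e1, Real.rpow_natCast]
    unfold QQ
    push_cast
    linarith
  · exact h1
  · exact h2

/-- the two inequalities hold for large `N` -/
theorem nat_ineqs (N h k n0 : ℕ) (hk1 : 1 ≤ k) (hlam : (10 : ℝ) ^ 6 ≤ Real.log (Real.log N))
    (hN4 : (Real.log N) ^ 4 ≤ N) (hk : (k : ℝ) ≤ 3 * Real.log (Real.log N))
    (hP1 : 2 * Real.log N < (2 : ℝ) ^ k) (hP2 : (2 : ℝ) ^ k ≤ 4 * Real.log N)
    (hh : (h : ℝ) * (Real.log N * Real.log (Real.log N)) ^ 2 ≤ N) (hn0 : N ≤ n0)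
    (hn0' : n0 ≤ N + h) :
    (2 ^ k * (20 * k) * QQ k ((2 * N) ^ h)) ^ 2 *
      (4 * (2 * N) ^ h * n0.factorial) ^ (2 * (20 * k) + k) <
        (2 ^ ((n0 - (Nat.log 2 n0 + 1)) * (2 ^ k * (18 * k)))) ^ 2 ∧
    (2 ^ k * (20 * k) * (QQ k ((2 * N) ^ h) * ((2 * N) ^ h + 1) ^ k)) ^ 2 ^ k < n0.factorial := by
  set l := Real.log N with hl
  set lam := Real.log l with hlamdef
  have hl_lam : lam ≤ l := by
    have hl0 : 0 < l := by
      by_contra hcon
      push Not at hcon
      rcases hcon.lt_or_eq with h3 | h3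
      · -- `log N ≥ 0`
        have : 0 ≤ l := Real.log_natCast_nonneg N
        linarith
      · rw [hlamdef, h3, Real.log_zero] at hlam
        norm_num at hlam
    have := Real.log_le_sub_one_of_pos hl0
    linarith
  have hl6 : (10 : ℝ) ^ 6 ≤ l := hlam.trans hl_lam
  have hl0 : 0 < l := by linarith
  have hlam0 : 0 < lam := by linarith
  have hNpos : 0 < (N : ℝ) := by
    rcases Nat.eq_zero_or_pos N with h3 | h3
    · rw [hl, h3] at hl6
      norm_num at hl6
    · exact_mod_cast h3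
  have hN1 : 1 ≤ N := by exact_mod_cast hNpos
  have hN4' : (10 : ℝ) ^ 24 ≤ N := by
    refine le_trans ?_ hN4
    calc (10 : ℝ) ^ 24 = ((10 : ℝ) ^ 6) ^ 4 := by norm_num
      _ ≤ l ^ 4 := by gcongr
  set R := (2 * N) ^ h with hR
  have hR1 : 1 ≤ R := Nat.one_le_pow _ _ (by omega)
  have hR1' : (1 : ℝ) ≤ R := by exact_mod_cast hR1
  set u : ℝ := h * l with hu
  have hu0 : 0 ≤ u := by positivity
  -- `log R ≤ 2 u`
  have hlogR : Real.log R ≤ 2 * u := by
    rw [hR]
    push_cast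
    rw [Real.log_pow, Real.log_mul (by norm_num) (by positivity), ← hl, hu]
    have h3 : Real.log 2 ≤ 1 := by
      have := Real.log_two_lt_d9
      linarith
    have h4 : Real.log 2 + l ≤ 2 * l := by linarith
    calc (h : ℝ) * (Real.log 2 + l) ≤ h * (2 * l) := mul_le_mul_of_nonneg_left h4 (by positivity)
      _ = 2 * (h * l) := by ring
  have hlogR0 : 0 ≤ Real.log R := Real.log_nonneg hR1'
  have hu2 : u * l * lam ^ 2 ≤ N := by
    have h3 : (h : ℝ) * l * l * lam ^ 2 = (h : ℝ) * (l * lam) ^ 2 := by ring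
    rw [hu, h3]
    exact hh
  -- `h ≤ N / 1000`
  have hhN : 1000 * (h : ℝ) ≤ N := by
    refine le_trans ?_ hh
    rw [mul_comm]
    apply mul_le_mul_of_nonneg_left _ (by positivity)
    have h3 : (1000 : ℝ) ≤ l * lam := by nlinarith
    nlinarith
  have hn0r : (N : ℝ) ≤ n0 := by exact_mod_cast hn0
  have hn0r' : (n0 : ℝ) ≤ N + h := by exact_mod_cast hn0'
  have hn0pos : (0 : ℝ) < n0 := by linarith
  have hlogn0 : l ≤ Real.log n0 := Real.log_le_log hNpos hn0r
  have hlogn0' : Real.log n0 ≤ l + 0.01 := by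
    have h3 : (n0 : ℝ) ≤ N * 1.001 := by linarith
    have h4 : Real.log n0 ≤ Real.log (N * 1.001) := Real.log_le_log hn0pos h3
    rw [Real.log_mul (by positivity) (by norm_num)] at h4
    have h5 := Real.log_le_sub_one_of_pos (by norm_num : (0 : ℝ) < 1.001)
    linarith
  set LY := Real.log (n0.factorial : ℝ) with hLY
  have hfpos : (0 : ℝ) < (n0.factorial : ℝ) := by exact_mod_cast Nat.factorial_pos n0
  -- upper bound
  have hLY2 : LY ≤ 1.05 * (N * l) := by
    have h3 : (n0.factorial : ℝ) ≤ (n0 : ℝ) ^ n0 := by exact_mod_cast Nat.factorial_le_pow n0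
    have h4 : LY ≤ n0 * Real.log n0 := by
      rw [hLY, ← Real.log_pow]
      exact Real.log_le_log hfpos h3
    refine h4.trans ?_
    calc (n0 : ℝ) * Real.log n0 ≤ (N * 1.001) * (l + 0.01) :=
          mul_le_mul (by linarith) hlogn0' (by linarith) (by positivity)
      _ ≤ 1.05 * (N * l) := by nlinarith
  have hLY1 : N * l / 2 ≤ LY := by
    have h3 := Stirling.le_log_factorial_stirling (n := n0) (by omega)
    have h4 : (n0 : ℝ) * Real.log n0 - n0 ≤ LY := by
      have h5 : 0 ≤ Real.log n0 := by linarith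
      have h6 : 0 ≤ Real.log (2 * Real.pi) := Real.log_nonneg (by
        have := Real.pi_gt_three
        linarith)
      linarith
    have h5 : (N : ℝ) * (l - 1) ≤ n0 * (Real.log n0 - 1) :=
      mul_le_mul hn0r (by linarith) (by linarith) hn0pos.le
    nlinarith
  -- `v`
  have hv : 0.99 * (N : ℝ) ≤ ((n0 - (Nat.log 2 n0 + 1) : ℕ) : ℝ) := by
    have h3 : (Nat.log 2 n0 : ℝ) ≤ 2 * (l + 0.01) := by
      have h4 : (2 : ℝ) ^ Nat.log 2 n0 ≤ n0 := by
        exact_mod_cast Nat.pow_log_le_self 2 (by omega : n0 ≠ 0)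
      have h5 : Nat.log 2 n0 * Real.log 2 ≤ Real.log n0 := by
        rw [← Real.log_pow]
        exact Real.log_le_log (by positivity) h4
      have h6 := Real.log_two_gt_d9
      have h7 : (0 : ℝ) ≤ (Nat.log 2 n0 : ℝ) := by positivity
      nlinarith
    have h4 : (n0 : ℝ) - ((Nat.log 2 n0 : ℝ) + 1) ≤ ((n0 - (Nat.log 2 n0 + 1) : ℕ) : ℝ) := by
      rw [sub_le_iff_le_add]
      have h8 : n0 ≤ (n0 - (Nat.log 2 n0 + 1)) + (Nat.log 2 n0 + 1) := by omega
      exact_mod_cast h8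
    have h5 : l ≤ 0.001 * N := by
      have h6 : l * (10 ^ 6) ^ 3 ≤ l ^ 4 := by
        calc l * ((10 : ℝ) ^ 6) ^ 3 ≤ l * l ^ 3 := by gcongr
          _ = l ^ 4 := by ring
      norm_num at h6
      linarith
    linarith
  have hkr : (1 : ℝ) ≤ k := by exact_mod_cast hk1
  set P : ℝ := (2 : ℝ) ^ k with hP
  have hP0 : 0 < P := by positivity
  set M : ℝ := P * (18 * k) with hM
  have hMnat : ((2 ^ k * (18 * k) : ℕ) : ℝ) = M := by rw [hM, hP]; push_cast; ring
  have hM0 : 0 < M := by positivity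
  set a1 := Real.log (P * (20 * k)) with ha1
  set a2 := Real.log (4 * R) with ha2
  set a3 := Real.log (M + 1) with ha3
  set a4 := Real.log ((R : ℝ) + 1) with ha4
  have e1 : a1 ≤ P * (20 * k) := by
    have := Real.log_le_sub_one_of_pos (by positivity : 0 < P * (20 * k))
    linarith
  have e2 : a2 ≤ 2 + 2 * u := by
    rw [ha2, Real.log_mul (by norm_num) (by positivity)]
    have h4 : Real.log 4 ≤ 2 := by
      have h5 : (4 : ℝ) = 2 ^ 2 := by norm_num
      rw [h5, Real.log_pow]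
      have := Real.log_two_lt_d9
      push_cast
      linarith
    linarith
  have e3 : a3 ≤ M := by
    have := Real.log_le_sub_one_of_pos (by positivity : 0 < M + 1)
    linarith
  have e4 : a4 ≤ 1 + 2 * u := by
    have h3 : a4 ≤ Real.log (2 * R) := Real.log_le_log (by positivity) (by linarith)
    rw [Real.log_mul (by norm_num) (by positivity)] at h3
    have := Real.log_two_lt_d9
    linarith
  obtain ⟨r1, r2⟩ := num_real N l lam k P u a1 a2 a3 a4 M LY
    ((n0 - (Nat.log 2 n0 + 1) : ℕ) : ℝ) hlam hl_lam hN4 hkr hk hP1 hP2 hu0 hu2 e1 e2 e3 e4 hM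
    hLY1 hLY2 hv
  -- logarithm of `QQ`
  have hcast : (QQ k R : ℝ) =
      ((P * (20 * k)) * ((4 * (R : ℝ)) ^ (2 ^ k * (18 * k)) * (M + 1) ^ k)) ^ 9 := by
    simp only [QQ]
    push_cast
    rfl
  have hkpos : (0 : ℝ) < k := by linarith
  have hRpos : (0 : ℝ) < R := by linarith
  have hQpos : (0 : ℝ) < (QQ k R : ℝ) := by
    rw [hcast]
    positivity
  have b1 : 0 < P * (20 * (k : ℝ)) := by positivity
  have b2 : 0 < (4 * (R : ℝ)) ^ (2 ^ k * (18 * k)) := by positivity
  have b3 : 0 < (M + 1) ^ k := by positivity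
  have b4 : 0 < (4 * (R : ℝ)) ^ (2 ^ k * (18 * k)) * (M + 1) ^ k := by positivity
  have c1 : Real.log ((4 * (R : ℝ)) ^ (2 ^ k * (18 * k))) = M * a2 := by
    rw [Real.log_pow, hMnat]
  have c2 : Real.log ((M + 1) ^ k) = k * a3 := by
    rw [Real.log_pow]
  have c3 : Real.log ((4 * (R : ℝ)) ^ (2 ^ k * (18 * k)) * (M + 1) ^ k) = M * a2 + k * a3 := by
    rw [Real.log_mul b2.ne' b3.ne', c1, c2]
  have hlogQ : Real.log (QQ k R : ℝ) = 9 * (a1 + (M * a2 + k * a3)) := by
    rw [hcast, Real.log_pow, Real.log_mul b1.ne' b4.ne', c3]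
    push_cast
    ring
  have hW1 : Real.log ((P * (20 * k)) * (QQ k R : ℝ)) =
      a1 + 9 * (a1 + (M * a2 + k * a3)) := by
    rw [Real.log_mul b1.ne' hQpos.ne', hlogQ]
  have hW2 : Real.log ((4 * (R : ℝ)) * (n0.factorial : ℝ)) = a2 + LY := by
    rw [Real.log_mul (by positivity) hfpos.ne']
  have hW3 : Real.log ((2 : ℝ) ^ ((n0 - (Nat.log 2 n0 + 1)) * (2 ^ k * (18 * k)))) =
      ((n0 - (Nat.log 2 n0 + 1) : ℕ) : ℝ) * M * Real.log 2 := by
    rw [Real.log_pow, Nat.cast_mul, hMnat]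
  constructor
  · -- first inequality
    have d1 : 0 < ((P * (20 * k)) * (QQ k R : ℝ)) ^ 2 := by positivity
    have d2 : 0 < ((4 * (R : ℝ)) * (n0.factorial : ℝ)) ^ (2 * (20 * k) + k) := by positivity
    have d3 : (0 : ℝ) < ((2 : ℝ) ^ ((n0 - (Nat.log 2 n0 + 1)) * (2 ^ k * (18 * k)))) ^ 2 := by
      positivity
    have h3 : Real.log (((P * (20 * k)) * (QQ k R : ℝ)) ^ 2 *
        ((4 * (R : ℝ)) * (n0.factorial : ℝ)) ^ (2 * (20 * k) + k)) <
        Real.log (((2 : ℝ) ^ ((n0 - (Nat.log 2 n0 + 1)) * (2 ^ k * (18 * k)))) ^ 2) := by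
      rw [Real.log_mul d1.ne' d2.ne', Real.log_pow, Real.log_pow, Real.log_pow, hW1, hW2, hW3]
      push_cast
      have h4 : ((n0 - (Nat.log 2 n0 + 1) : ℕ) : ℝ) * M * 0.69 ≤
          ((n0 - (Nat.log 2 n0 + 1) : ℕ) : ℝ) * M * Real.log 2 := by
        apply mul_le_mul_of_nonneg_left _ (by positivity)
        have := Real.log_two_gt_d9
        linarith
      have h5 : 20.5 * (k : ℝ) * (a2 + LY) ≤ 20.5 * k * (2 + 2 * u + LY) := by
        apply mul_le_mul_of_nonneg_left _ (by positivity)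
        linarith
      generalize ((n0 - (Nat.log 2 n0 + 1) : ℕ) : ℝ) * M * Real.log 2 = w1 at h4 ⊢
      generalize ((n0 - (Nat.log 2 n0 + 1) : ℕ) : ℝ) * M * 0.69 = w2 at h4 r1
      generalize a1 + 9 * (a1 + (M * a2 + k * a3)) = w3 at r1 ⊢
      have h6 : (2 * (20 * (k : ℝ)) + k) * (a2 + LY) = 2 * (20.5 * k * (a2 + LY)) := by ring
      rw [h6]
      linarith
    have h4 := (Real.log_lt_log_iff (mul_pos d1 d2) d3).1 h3
    have h5 : (((2 ^ k * (20 * k) * QQ k R) ^ 2 *
      (4 * R * n0.factorial) ^ (2 * (20 * k) + k) : ℕ) : ℝ) <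
        (((2 ^ ((n0 - (Nat.log 2 n0 + 1)) * (2 ^ k * (18 * k)))) ^ 2 : ℕ) : ℝ) := by
      push_cast
      exact h4
    exact_mod_cast h5
  · have b5 : 0 < ((R : ℝ) + 1) ^ k := by positivity
    have c5 : Real.log ((P * (20 * k)) * ((QQ k R : ℝ) * ((R : ℝ) + 1) ^ k)) =
        a1 + (9 * (a1 + (M * a2 + k * a3)) + k * a4) := by
      rw [Real.log_mul b1.ne' (mul_pos hQpos b5).ne', Real.log_mul hQpos.ne' b5.ne', hlogQ,
        Real.log_pow]
    have d1 : 0 < ((P * (20 * k)) * ((QQ k R : ℝ) * ((R : ℝ) + 1) ^ k)) ^ 2 ^ k := by positivity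
    have h3 : Real.log (((P * (20 * k)) * ((QQ k R : ℝ) * ((R : ℝ) + 1) ^ k)) ^ 2 ^ k) <
        Real.log (n0.factorial : ℝ) := by
      rw [Real.log_pow, c5]
      push_cast
      exact r2
    have h4 := (Real.log_lt_log_iff d1 hfpos).1 h3
    have h5 : (((2 ^ k * (20 * k) * (QQ k R * (R + 1) ^ k)) ^ 2 ^ k : ℕ) : ℝ) <
        (n0.factorial : ℝ) := by
      push_cast
      exact h4
    exact_mod_cast h5

end Pool.Agent.FactLoc
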