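import Pool.Agent.FactLoc.Tower

/-!
# Representations with bounded coefficients, and the non-vanishing lemma
-/

namespace Pool.Agent.FactLoc

open Finset

noncomputable section

/-- the `ℓ¹` norm of an integer polynomial -/
def l1 (f : Polynomial ℤ) : ℕ := ∑ i ∈ f.support, (f.coeff i).natAbs

lemma l1_eq_sum {f : Polynomial ℤ} {s : Finset ℕ} (hs : f.support ⊆ s) :
    l1 f = ∑ i ∈ s, (f.coeff i).natAbs := by
  unfold l1
  apply sum_subset hs
  intro i _ hi
  rw [Polynomial.notMem_support_iff.1 hi, Int.natAbs_zero]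

lemma l1_add_le (f g : Polynomial ℤ) : l1 (f + g) ≤ l1 f + l1 g := by
  classical
  rw [l1_eq_sum (Polynomial.support_add (p := f) (q := g)),
    l1_eq_sum (f := f) (subset_union_left (s₂ := g.support)),
    l1_eq_sum (f := g) (subset_union_right (s₁ := f.support)), ← sum_add_distrib]
  apply sum_le_sum
  intro i _
  rw [Polynomial.coeff_add]
  exact Int.natAbs_add_le _ _

lemma l1_neg (f : Polynomial ℤ) : l1 (-f) = l1 f := by
  unfold l1
  rw [Polynomial.support_neg]
  simp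

lemma l1_zero : l1 0 = 0 := by simp [l1]

lemma l1_sum_le {ι : Type*} (s : Finset ι) (f : ι → Polynomial ℤ) :
    l1 (∑ i ∈ s, f i) ≤ ∑ i ∈ s, l1 (f i) := by
  classical
  induction s using Finset.induction_on with
  | empty => simp [l1_zero]
  | insert a s ha ih =>
    rw [sum_insert ha, sum_insert ha]
    exact (l1_add_le _ _).trans (by omega)

lemma l1_C_mul_le (a : ℤ) (g : Polynomial ℤ) : l1 (Polynomial.C a * g) ≤ a.natAbs * l1 g := by
  have h : (Polynomial.C a * g).support ⊆ g.support := by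
    intro i hi
    rw [Polynomial.mem_support_iff] at hi ⊢
    intro h0
    apply hi
    rw [Polynomial.coeff_C_mul, h0, mul_zero]
  rw [l1_eq_sum h, l1, mul_sum]
  apply sum_le_sum
  intro i _
  rw [Polynomial.coeff_C_mul, Int.natAbs_mul]

lemma support_subset_range (f : Polynomial ℤ) {N : ℕ} (hN : f.natDegree < N) :
    f.support ⊆ range N := by
  intro i hi
  rw [mem_range]
  exact lt_of_le_of_lt (Polynomial.le_natDegree_of_mem_supp i hi) hN

lemma l1_X_mul (g : Polynomial ℤ) : l1 (Polynomial.X * g) = l1 g := by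
  have h1 : (Polynomial.X * g).natDegree < (g.natDegree + 1) + 1 := by
    have := Polynomial.natDegree_mul_le (p := (Polynomial.X : Polynomial ℤ)) (q := g)
    rw [Polynomial.natDegree_X] at this
    omega
  rw [l1_eq_sum (support_subset_range _ h1), l1_eq_sum (support_subset_range g (Nat.lt_succ_self _)),
    sum_range_succ']
  simp [Polynomial.coeff_X_mul]

lemma l1_X_pow_mul (n : ℕ) (g : Polynomial ℤ) : l1 (Polynomial.X ^ n * g) = l1 g := by
  induction n with
  | zero => simp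
  | succ n ih => rw [pow_succ', mul_assoc, l1_X_mul, ih]

lemma l1_C (a : ℤ) : l1 (Polynomial.C a) ≤ a.natAbs := by
  rw [l1_eq_sum (s := {0}) (Polynomial.support_C_subset a)]
  simp

lemma l1_mul_le (f g : Polynomial ℤ) : l1 (f * g) ≤ l1 f * l1 g := by
  conv_lhs => rw [f.as_sum_support_C_mul_X_pow, sum_mul]
  refine (l1_sum_le _ _).trans ?_
  show _ ≤ (∑ i ∈ f.support, (f.coeff i).natAbs) * l1 g
  rw [sum_mul]
  apply sum_le_sum
  intro i _
  rw [mul_assoc]
  refine (l1_C_mul_le _ _).trans ?_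
  rw [l1_X_pow_mul]

lemma natAbs_coeff_le_l1 (f : Polynomial ℤ) (i : ℕ) : (f.coeff i).natAbs ≤ l1 f := by
  by_cases h : i ∈ f.support
  · exact single_le_sum (f := fun i => (f.coeff i).natAbs) (fun _ _ => Nat.zero_le _) h
  · rw [Polynomial.notMem_support_iff.1 h]; simp

/-- an integer root `Y ≥ 1` of a nonzero polynomial is at most the `ℓ¹` norm -/
lemma le_l1_of_root (Y : ℕ) (hY : 1 ≤ Y) : ∀ N : ℕ, ∀ f : Polynomial ℤ, f.natDegree < N → f ≠ 0 →
    f.eval (Y : ℤ) = 0 → Y ≤ l1 f := by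
  intro N
  induction N with
  | zero => intro f h; omega
  | succ N ih =>
    intro f hN hf h0
    have hdiv := Polynomial.divX_mul_X_add f
    have hev : (f.divX).eval (Y : ℤ) * Y + f.coeff 0 = 0 := by
      rw [← h0]
      conv_rhs => rw [← hdiv]
      simp
    by_cases hc : f.coeff 0 = 0
    · have hY0 : (Y : ℤ) ≠ 0 := by exact_mod_cast (by omega : Y ≠ 0)
      rw [hc, add_zero] at hev
      have hev' : (f.divX).eval (Y : ℤ) = 0 := (mul_eq_zero.1 hev).resolve_right hY0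
      have hfX : f = Polynomial.X * f.divX := by
        conv_lhs => rw [← hdiv, hc]
        simp [mul_comm]
      have hd0 : f.divX ≠ 0 := by
        intro h
        apply hf
        rw [hfX, h, mul_zero]
      have hdeg : f.divX.natDegree < N := by
        rw [Polynomial.natDegree_divX_eq_natDegree_tsub_one]
        have : f.natDegree ≠ 0 := by
          intro h
          have := Polynomial.eq_C_of_natDegree_eq_zero h
          rw [hc] at this
          exact hf (by simpa using this)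
        omega
      have := ih f.divX hdeg hd0 hev'
      rwa [hfX, l1_X_mul]
    · have hdvd : (Y : ℤ) ∣ f.coeff 0 := ⟨-(f.divX).eval (Y : ℤ), by linear_combination hev⟩
      have h1 : Y ∣ (f.coeff 0).natAbs := Int.natCast_dvd.1 hdvd
      exact (Nat.le_of_dvd (Int.natAbs_pos.2 hc) h1).trans (natAbs_coeff_le_l1 f 0)

/-! ### representations -/

variable (Y : ℕ) (ρ : ℕ → ℕ) (z : ℕ → ℤ)

/-- the pair `(X, Y)` -/
def TT : PowerSeries ℤ × ℤ := (PowerSeries.X, (Y : ℤ))

/-- the pair `(zs ρ_i, z_i)` -/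
def zeta (i : ℕ) : PowerSeries ℤ × ℤ := (zs (ρ i), z i)

/-- `x` is the image of a formal expression in `X, z_0, …, z_{k-1}` with coefficient bound `H` -/
def Rep : ℕ → ℕ → PowerSeries ℤ × ℤ → Prop
  | 0, H, x => ∃ f : Polynomial ℤ, l1 f ≤ H ∧ x = ((f : PowerSeries ℤ), f.eval (Y : ℤ))
  | k + 1, H, x => ∃ HP HQ : ℕ, ∃ P Q : PowerSeries ℤ × ℤ, Rep k HP P ∧ Rep k HQ Q ∧
      HP + (ρ k + 1) * HQ ≤ H ∧ x = P + Q * zeta ρ z k

variable {Y ρ z}

lemma rep_zero (k : ℕ) (H : ℕ) : Rep Y ρ z k H 0 := by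
  induction k generalizing H with
  | zero => exact ⟨0, by simp [l1_zero], by simp; rfl⟩
  | succ k ih => exact ⟨0, 0, 0, 0, ih 0, ih 0, by simp, by simp⟩

lemma rep_mono {k H H' : ℕ} {x : PowerSeries ℤ × ℤ} (h : Rep Y ρ z k H x) (hH : H ≤ H') :
    Rep Y ρ z k H' x := by
  cases k with
  | zero =>
    obtain ⟨f, h1, h2⟩ := h
    exact ⟨f, h1.trans hH, h2⟩
  | succ k =>
    obtain ⟨a, b, P, Q, h1, h2, h3, h4⟩ := h
    exact ⟨a, b, P, Q, h1, h2, h3.trans hH, h4⟩

lemma rep_lift {k H : ℕ} {x : PowerSeries ℤ × ℤ} (h : Rep Y ρ z k H x) :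
    Rep Y ρ z (k + 1) H x :=
  ⟨H, 0, x, 0, h, rep_zero k 0, by simp, by simp⟩

lemma rep_add {k : ℕ} : ∀ {H H' : ℕ} {x x' : PowerSeries ℤ × ℤ}, Rep Y ρ z k H x →
    Rep Y ρ z k H' x' → Rep Y ρ z k (H + H') (x + x') := by
  induction k with
  | zero =>
    rintro H H' x x' ⟨f, hf, rfl⟩ ⟨g, hg, rfl⟩
    refine ⟨f + g, (l1_add_le f g).trans (by omega), ?_⟩
    simp
  | succ k ih =>
    rintro H H' x x' ⟨a, b, P, Q, h1, h2, h3, rfl⟩ ⟨a', b', P', Q', h1', h2', h3', rfl⟩
    refine ⟨a + a', b + b', P + P', Q + Q', ih h1 h1', ih h2 h2', ?_, by ring⟩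
    nlinarith

lemma rep_neg {k : ℕ} : ∀ {H : ℕ} {x : PowerSeries ℤ × ℤ}, Rep Y ρ z k H x →
    Rep Y ρ z k H (-x) := by
  induction k with
  | zero =>
    rintro H x ⟨f, hf, rfl⟩
    refine ⟨-f, by rwa [l1_neg], ?_⟩
    simp
  | succ k ih =>
    rintro H x ⟨a, b, P, Q, h1, h2, h3, rfl⟩
    exact ⟨a, b, -P, -Q, ih h1, ih h2, h3, by ring⟩

lemma rep_T (k : ℕ) : Rep Y ρ z k 1 (TT Y) := by
  induction k with
  | zero =>
    refine ⟨Polynomial.X, ?_, ?_⟩
    · have := l1_X_mul (1 : Polynomial ℤ)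
      rw [mul_one] at this
      rw [this]
      exact (l1_C 1)
    · simp [TT]
  | succ k ih => exact rep_lift ih

lemma rep_int (k : ℕ) (c : ℤ) : Rep Y ρ z k c.natAbs (c : PowerSeries ℤ × ℤ) := by
  induction k with
  | zero =>
    refine ⟨Polynomial.C c, l1_C c, ?_⟩
    apply Prod.ext
    · show ((c : ℤ) : PowerSeries ℤ) = ((Polynomial.C c : Polynomial ℤ) : PowerSeries ℤ)
      rw [Polynomial.coe_C]
      exact (eq_intCast (PowerSeries.C (R := ℤ)) c).symm
    · simp
  | succ k ih => exact rep_lift ih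

lemma rep_nat (k : ℕ) (c : ℕ) : Rep Y ρ z k c (c : PowerSeries ℤ × ℤ) := by
  have := rep_int (Y := Y) (ρ := ρ) (z := z) k (c : ℤ)
  simpa using this

variable (hz : ∀ i, z i ^ 2 + z i = ρ i * (Y : ℤ))
include hz

lemma zeta_sq (i : ℕ) :
    zeta ρ z i * zeta ρ z i = ((ρ i : ℕ) : PowerSeries ℤ × ℤ) * TT Y - zeta ρ z i := by
  have h1 := zs_eq (ρ i)
  have h2 := hz i
  unfold zeta TT
  apply Prod.ext
  · simp only [Prod.fst_mul, Prod.fst_sub, Prod.fst_natCast]
    have : (PowerSeries.C ((ρ i : ℕ) : ℤ)) = ((ρ i : ℕ) : PowerSeries ℤ) := by simp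
    rw [← this]
    linear_combination h1
  · simp only [Prod.snd_mul, Prod.snd_sub, Prod.snd_natCast]
    linear_combination h2

lemma rep_mul {k : ℕ} : ∀ {H H' : ℕ} {x x' : PowerSeries ℤ × ℤ}, Rep Y ρ z k H x →
    Rep Y ρ z k H' x' → Rep Y ρ z k (H * H') (x * x') := by
  induction k with
  | zero =>
    rintro H H' x x' ⟨f, hf, rfl⟩ ⟨g, hg, rfl⟩
    refine ⟨f * g, (l1_mul_le f g).trans (Nat.mul_le_mul hf hg), ?_⟩
    simp
  | succ k ih =>
    rintro H H' x x' ⟨a, b, P, Q, h1, h2, h3, rfl⟩ ⟨a', b', P', Q', h1', h2', h3', rfl⟩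
    refine ⟨a * a' + ρ k * 1 * (b * b'), a * b' + b * a' + b * b',
      P * P' + ((ρ k : ℕ) : PowerSeries ℤ × ℤ) * TT Y * (Q * Q'),
      P * Q' + Q * P' + -(Q * Q'), ?_, ?_, ?_, ?_⟩
    · exact rep_add (ih h1 h1') (ih (ih (rep_nat k _) (rep_T k)) (ih h2 h2'))
    · exact rep_add (rep_add (ih h1 h2') (ih h2 h1')) (rep_neg (ih h2 h2'))
    · refine le_trans ?_ (Nat.mul_le_mul h3 h3')
      have : (a + (ρ k + 1) * b) * (a' + (ρ k + 1) * b') =
          a * a' + ρ k * 1 * (b * b') + (ρ k + 1) * (a * b' + b * a' + b * b') +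
            ρ k * ρ k * (b * b') := by ring
      rw [this]
      exact Nat.le_add_right _ _
    · have hs := zeta_sq hz k
      linear_combination (Q * Q') * hs

omit hz in
lemma rep_zeta {k i : ℕ} (hi : i < k) : Rep Y ρ z k (ρ i + 1) (zeta ρ z i) := by
  induction k with
  | zero => omega
  | succ k ih =>
    rcases Nat.lt_succ_iff_lt_or_eq.1 hi with h | rfl
    · exact rep_lift (ih h)
    · refine ⟨0, 1, 0, 1, rep_zero _ _, ?_, by simp, by simp⟩
      have := rep_nat (Y := Y) (ρ := ρ) (z := z) i 1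
      simpa using this

omit hz in
lemma rep_mem {k : ℕ} : ∀ {H : ℕ} {x : PowerSeries ℤ × ℤ}, Rep Y ρ z k H x →
    iota x.1 ∈ KK ρ k := by
  induction k with
  | zero =>
    rintro H x ⟨f, hf, rfl⟩
    exact iP_mem f
  | succ k ih =>
    rintro H x ⟨a, b, P, Q, h1, h2, h3, rfl⟩
    rw [Prod.fst_add, Prod.fst_mul, map_add, map_mul]
    exact (KK ρ (k + 1)).add_mem (KK_le_succ ρ k (ih h1))
      ((KK ρ (k + 1)).mul_mem (KK_le_succ ρ k (ih h2)) (zs_mem_succ ρ k))

/-- the non-vanishing lemma -/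
lemma rep_key (hY : 1 ≤ Y) : ∀ k : ℕ, (∀ i < k, 1 ≤ ρ i) → (∀ i j, i < j → j < k → ρ i ≠ ρ j) →
    ∀ (H : ℕ) (x : PowerSeries ℤ × ℤ), Rep Y ρ z k H x → x.1 ≠ 0 → x.2 = 0 → Y ≤ H ^ 2 ^ k := by
  intro k
  induction k with
  | zero =>
    rintro _ _ H x ⟨f, hf, rfl⟩ h1 h2
    have hf0 : f ≠ 0 := by
      rintro rfl
      exact h1 (by simp)
    have := le_l1_of_root Y hY (f.natDegree + 1) f (Nat.lt_succ_self _) hf0 h2
    simpa using this.trans hf
  | succ k ih =>
    rintro hpos hinj H x ⟨a, b, P, Q, h1, h2, h3, rfl⟩ hx1 hx2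
    -- the conjugate
    set xb : PowerSeries ℤ × ℤ := P + -Q + (-Q) * zeta ρ z k with hxb
    have hn : (P + Q * zeta ρ z k) * xb =
        P * P + -(P * Q) + -(((ρ k : ℕ) : PowerSeries ℤ × ℤ) * TT Y * (Q * Q)) := by
      have hs := zeta_sq hz k
      rw [hxb]
      linear_combination (-(Q * Q)) * hs
    have hrep : Rep Y ρ z k (a * a + a * b + ρ k * 1 * (b * b))
        (P * P + -(P * Q) + -(((ρ k : ℕ) : PowerSeries ℤ × ℤ) * TT Y * (Q * Q))) :=
      rep_add (rep_add (rep_mul hz h1 h1) (rep_neg (rep_mul hz h1 h2)))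
        (rep_neg (rep_mul hz (rep_mul hz (rep_nat k _) (rep_T k)) (rep_mul hz h2 h2)))
    have hxb1 : xb.1 ≠ 0 := by
      intro h0
      have h0' : (P.1 + -Q.1) + (-Q.1) * zs (ρ k) = 0 := by
        rw [← h0, hxb]
        simp [zeta]
      have hPK := rep_mem h1
      have hQK := rep_mem h2
      obtain ⟨e1, e2⟩ := lin_indep_step ρ k (fun i hi => hpos i (by omega))
        (fun i hi => hinj i k hi (by omega)) (P.1 + -Q.1) (-Q.1)
        (by rw [map_add, map_neg]; exact (KK ρ k).add_mem hPK ((KK ρ k).neg_mem hQK))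
        (by rw [map_neg]; exact (KK ρ k).neg_mem hQK) h0'
      have hQ0 : Q.1 = 0 := neg_eq_zero.1 e2
      rw [hQ0, neg_zero, add_zero] at e1
      apply hx1
      rw [Prod.fst_add, Prod.fst_mul, e1, hQ0]
      simp
    have hk := ih (fun i hi => hpos i (by omega)) (fun i j hij hj => hinj i j hij (by omega))
      _ _ hrep (by rw [← hn, Prod.fst_mul]; exact mul_ne_zero hx1 hxb1)
      (by rw [← hn, Prod.snd_mul, hx2, zero_mul])
    refine hk.trans ?_
    rw [pow_succ' 2 k, pow_mul]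
    refine Nat.pow_le_pow_left ?_ _
    calc a * a + a * b + ρ k * 1 * (b * b) ≤ (a + (ρ k + 1) * b) ^ 2 := by
          have : (a + (ρ k + 1) * b) ^ 2 = a * a + a * b + ρ k * 1 * (b * b) +
            (a * b + 2 * (ρ k * (a * b)) + ρ k * (b * b) + ρ k * ρ k * (b * b) + b * b) := by ring
          rw [this]
          exact Nat.le_add_right _ _
      _ ≤ H ^ 2 := Nat.pow_le_pow_left h3 2

end

end Pool.Agent.FactLoc
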