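import Pool.Agent.FactLoc.Fields

/-!
# The power series `z` with `z² + z = ρ X`
-/

namespace Pool.Agent.FactLoc

open Finset PowerSeries

/-- the power series with `z² + z = ρ X` and constant term `0` -/
noncomputable def zs (ρ : ℕ) : ℤ⟦X⟧ :=
  PowerSeries.mk (fun n => if n = 0 then 0 else (-1) ^ (n - 1) * (catalan (n - 1) : ℤ) * (ρ : ℤ) ^ n)

lemma coeff_zs_zero (ρ : ℕ) : coeff 0 (zs ρ) = 0 := by
  simp [zs]

lemma constantCoeff_zs (ρ : ℕ) : constantCoeff (zs ρ) = 0 := by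
  rw [← coeff_zero_eq_constantCoeff_apply]
  exact coeff_zs_zero ρ

lemma coeff_zs_succ (ρ n : ℕ) :
    coeff (n + 1) (zs ρ) = (-1) ^ n * (catalan n : ℤ) * (ρ : ℤ) ^ (n + 1) := by
  simp [zs]

lemma zs_eq (ρ : ℕ) : zs ρ ^ 2 + zs ρ = (C (ρ : ℤ)) * X := by
  ext n
  rcases n with _ | _ | n
  · simp [pow_two, constantCoeff_zs]
  · rw [map_add, pow_two, coeff_mul, Nat.sum_antidiagonal_succ, coeff_zs_zero]
    simp [coeff_zs_zero, coeff_zs_succ]
  · rw [map_add, pow_two, coeff_mul, Nat.sum_antidiagonal_succ, coeff_zs_zero, zero_mul, zero_add,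
      Nat.sum_antidiagonal_succ', coeff_zs_zero, mul_zero, zero_add]
    simp only [coeff_zs_succ]
    have h1 : ∀ p ∈ antidiagonal n, (-1 : ℤ) ^ p.1 * (catalan p.1 : ℤ) * (ρ : ℤ) ^ (p.1 + 1) *
        ((-1) ^ p.2 * (catalan p.2 : ℤ) * (ρ : ℤ) ^ (p.2 + 1)) =
        (-1) ^ n * (ρ : ℤ) ^ (n + 2) * ((catalan p.1 : ℤ) * (catalan p.2 : ℤ)) := by
      intro p hp
      have hp' := mem_antidiagonal.1 hp
      rw [← hp']
      ring
    rw [sum_congr rfl h1, ← mul_sum]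
    have h2 : ∑ p ∈ antidiagonal n, ((catalan p.1 : ℤ) * (catalan p.2 : ℤ)) =
        (catalan (n + 1) : ℤ) := by
      rw [catalan_succ']
      push_cast
      rfl
    rw [h2, coeff_C_mul, coeff_X]
    simp
    ring

lemma catalan_le (n : ℕ) : catalan n ≤ 4 ^ n := by
  rw [catalan_eq_centralBinom_div]
  refine (Nat.div_le_self _ _).trans ?_
  rw [Nat.centralBinom_eq_two_mul_choose]
  calc Nat.choose (2 * n) n ≤ 2 ^ (2 * n) := Nat.choose_le_two_pow _ _
    _ = 4 ^ n := by rw [pow_mul]; norm_num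

lemma abs_coeff_zs (ρ R : ℕ) (hρ : ρ ≤ R) (n : ℕ) : |coeff n (zs ρ)| ≤ (4 * R : ℤ) ^ n := by
  rcases n with _ | n
  · rw [coeff_zs_zero]; simp
  · rw [coeff_zs_succ, abs_mul, abs_mul, abs_pow, abs_neg, abs_one, one_pow, one_mul,
      Nat.abs_cast, abs_pow, Nat.abs_cast]
    calc (catalan n : ℤ) * (ρ : ℤ) ^ (n + 1) ≤ (4 ^ n : ℤ) * (R : ℤ) ^ (n + 1) := by
          gcongr
          · exact_mod_cast catalan_le n
      _ ≤ (4 ^ (n + 1) : ℤ) * (R : ℤ) ^ (n + 1) := by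
          gcongr
          · norm_num
          · omega
      _ = (4 * R : ℤ) ^ (n + 1) := by rw [mul_pow]

/-- products of the `zs` have coefficients `≤ (4R)^n (n+1)^{|I|}` -/
lemma abs_coeff_prod_zs (ρ : ℕ → ℕ) (R : ℕ) (I : Finset ℕ) (hρ : ∀ i ∈ I, ρ i ≤ R) (n : ℕ) :
    |coeff n (∏ i ∈ I, zs (ρ i))| ≤ (4 * R : ℤ) ^ n * ((n : ℤ) + 1) ^ I.card := by
  classical
  induction I using Finset.induction_on generalizing n with
  | empty =>
    rw [prod_empty, coeff_one, card_empty, pow_zero, mul_one]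
    split_ifs with h
    · rw [h]; simp
    · rw [abs_zero]; positivity
  | insert a s ha ih =>
    rw [prod_insert ha, coeff_mul, card_insert_of_notMem ha]
    refine (abs_sum_le_sum_abs _ _).trans ?_
    have hs : ∀ i ∈ s, ρ i ≤ R := fun i hi => hρ i (mem_insert_of_mem hi)
    have ha' : ρ a ≤ R := hρ a (mem_insert_self _ _)
    have h1 : ∀ p ∈ antidiagonal n, |coeff p.1 (zs (ρ a)) * coeff p.2 (∏ i ∈ s, zs (ρ i))| ≤
        (4 * R : ℤ) ^ n * ((n : ℤ) + 1) ^ s.card := by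
      intro p hp
      have hp' := mem_antidiagonal.1 hp
      rw [abs_mul]
      calc |coeff p.1 (zs (ρ a))| * |coeff p.2 (∏ i ∈ s, zs (ρ i))|
          ≤ (4 * R : ℤ) ^ p.1 * ((4 * R : ℤ) ^ p.2 * ((p.2 : ℤ) + 1) ^ s.card) :=
            mul_le_mul (abs_coeff_zs _ _ ha' _) (ih hs _) (abs_nonneg _) (by positivity)
        _ = (4 * R : ℤ) ^ n * ((p.2 : ℤ) + 1) ^ s.card := by
            rw [← mul_assoc, ← pow_add, hp']
        _ ≤ (4 * R : ℤ) ^ n * ((n : ℤ) + 1) ^ s.card := by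
            gcongr
            omega
    refine (sum_le_sum h1).trans ?_
    rw [sum_const, Nat.card_antidiagonal, nsmul_eq_mul, pow_succ]
    push_cast
    apply le_of_eq
    ring

end Pool.Agent.FactLoc
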