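import Pool.Agent.FactLoc.Series

/-!
# The tower of fields generated by the series `zs ρ_0, zs ρ_1, …` over `ℚ(X)`
-/

namespace Pool.Agent.FactLoc

open Finset

noncomputable section

/-- the embedding `ℤ⟦X⟧ → ℚ((X))` -/
def iota : PowerSeries ℤ →+* LaurentSeries ℚ :=
  (HahnSeries.ofPowerSeries ℤ ℚ).comp (PowerSeries.map (Int.castRingHom ℚ))

lemma iota_injective : Function.Injective iota := by
  intro a b hab
  have h1 : PowerSeries.map (Int.castRingHom ℚ) a = PowerSeries.map (Int.castRingHom ℚ) b :=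
    HahnSeries.ofPowerSeries_injective hab
  ext n
  have := congrArg (PowerSeries.coeff n) h1
  simpa using this

lemma two_ne : (2 : LaurentSeries ℚ) ≠ 0 := by
  intro h
  have h1 : iota 2 = iota 0 := by rw [map_ofNat, map_zero, h]
  have h2 : (2 : PowerSeries ℤ) = 0 := iota_injective h1
  have h3 := congrArg (PowerSeries.constantCoeff) h2
  rw [map_ofNat, map_zero] at h3
  norm_num at h3

/-- the embedding of the polynomials -/
def iP : Polynomial ℤ →+* LaurentSeries ℚ := iota.comp (Polynomial.coeToPowerSeries.ringHom)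

lemma iP_apply (f : Polynomial ℤ) : iP f = iota (f : PowerSeries ℤ) := rfl

lemma iP_injective : Function.Injective iP := by
  intro a b hab
  exact Polynomial.coe_injective ℤ (iota_injective hab)

lemma iP_ne_zero {f : Polynomial ℤ} (hf : f ≠ 0) : iP f ≠ 0 := by
  intro h
  exact hf (iP_injective (by rw [h, map_zero]))

/-- `ℚ(X)` inside `ℚ((X))` -/
def K0 : Subfield (LaurentSeries ℚ) where
  carrier := {x | ∃ f g : Polynomial ℤ, g ≠ 0 ∧ x * iP g = iP f}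
  mul_mem' := by
    rintro x y ⟨f, g, hg, h⟩ ⟨f', g', hg', h'⟩
    refine ⟨f * f', g * g', mul_ne_zero hg hg', ?_⟩
    rw [map_mul, map_mul, ← h, ← h']
    ring
  one_mem' := ⟨1, 1, one_ne_zero, by simp⟩
  add_mem' := by
    rintro x y ⟨f, g, hg, h⟩ ⟨f', g', hg', h'⟩
    refine ⟨f * g' + f' * g, g * g', mul_ne_zero hg hg', ?_⟩
    rw [map_mul, map_add, map_mul, map_mul, ← h, ← h']
    ring
  zero_mem' := ⟨0, 1, one_ne_zero, by simp⟩
  neg_mem' := by
    rintro x ⟨f, g, hg, h⟩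
    refine ⟨-f, g, hg, ?_⟩
    rw [map_neg, ← h]
    ring
  inv_mem' := by
    rintro x ⟨f, g, hg, h⟩
    by_cases hx : x = 0
    · rw [hx, inv_zero]
      exact ⟨0, 1, one_ne_zero, by simp⟩
    · refine ⟨g, f, ?_, ?_⟩
      · rintro rfl
        rw [map_zero] at h
        exact mul_ne_zero hx (iP_ne_zero hg) h
      · rw [← h, inv_mul_cancel_left₀ hx]

lemma mem_K0 {x : LaurentSeries ℚ} :
    x ∈ K0 ↔ ∃ f g : Polynomial ℤ, g ≠ 0 ∧ x * iP g = iP f := Iff.rfl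

lemma iP_mem (f : Polynomial ℤ) : iP f ∈ K0 := ⟨f, 1, one_ne_zero, by simp⟩

/-- `1 + 2 z = √(1 + 4 ρ X)` -/
def phi (ρ : ℕ) : LaurentSeries ℚ := 1 + 2 * iota (zs ρ)

/-- the polynomial `1 + 4 ρ X` -/
def aPol (ρ : ℕ) : Polynomial ℤ := 1 + Polynomial.C (4 * (ρ : ℤ)) * Polynomial.X

lemma phi_sq (ρ : ℕ) : phi ρ ^ 2 = iP (aPol ρ) := by
  have h1 : phi ρ ^ 2 = iota (1 + 4 * (zs ρ ^ 2 + zs ρ)) := by
    unfold phi
    rw [map_add, map_mul, map_one, map_ofNat, map_add, map_pow]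
    ring
  rw [h1, iP_apply, zs_eq]
  congr 1
  unfold aPol
  push_cast
  rw [map_mul]
  simp only [map_ofNat]
  ring

lemma aPol_map_eq {ρ : ℕ} (hρ : 1 ≤ ρ) :
    (aPol ρ).map (Int.castRingHom ℚ) =
      Polynomial.C (4 * (ρ : ℚ)) * (Polynomial.X - Polynomial.C (-(1 / (4 * (ρ : ℚ))))) := by
  have h : (ρ : ℚ) ≠ 0 := by positivity
  have h4 : Polynomial.C (4 * (ρ : ℚ)) * Polynomial.C (-(1 / (4 * (ρ : ℚ)))) = -1 := by
    rw [← Polynomial.C_mul]
    have : 4 * (ρ : ℚ) * -(1 / (4 * (ρ : ℚ))) = -1 := by field_simp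
    rw [this]
    simp
  rw [mul_sub, h4]
  unfold aPol
  rw [Polynomial.map_add, Polynomial.map_mul, Polynomial.map_one, Polynomial.map_C,
    Polynomial.map_X, map_mul, map_ofNat, map_natCast]
  ring

lemma aPol_map_ne_zero {ρ : ℕ} (hρ : 1 ≤ ρ) : (aPol ρ).map (Int.castRingHom ℚ) ≠ 0 := by
  rw [aPol_map_eq hρ]
  have h : (4 * (ρ : ℚ)) ≠ 0 := by positivity
  exact mul_ne_zero (by rwa [Ne, Polynomial.C_eq_zero]) (Polynomial.X_sub_C_ne_zero _)

lemma rootMult_self {ρ : ℕ} (hρ : 1 ≤ ρ) :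
    ((aPol ρ).map (Int.castRingHom ℚ)).rootMultiplicity (-(1 / (4 * (ρ : ℚ)))) = 1 := by
  have h0 := aPol_map_ne_zero hρ
  rw [aPol_map_eq hρ] at h0 ⊢
  rw [Polynomial.rootMultiplicity_mul h0, Polynomial.rootMultiplicity_C,
    Polynomial.rootMultiplicity_X_sub_C_self]

lemma eval_aPol_ne {ρ σ : ℕ} (hσ : 1 ≤ σ) (hne : ρ ≠ σ) :
    ((aPol ρ).map (Int.castRingHom ℚ)).eval (-(1 / (4 * (σ : ℚ)))) ≠ 0 := by
  unfold aPol
  rw [Polynomial.map_add, Polynomial.map_mul, Polynomial.map_one, Polynomial.map_C,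
    Polynomial.map_X, map_mul, map_ofNat, map_natCast]
  simp only [Polynomial.eval_add, Polynomial.eval_one, Polynomial.eval_mul, Polynomial.eval_C,
    Polynomial.eval_X]
  have h : (σ : ℚ) ≠ 0 := by positivity
  intro h0
  have h1 : (ρ : ℚ) = σ := by
    field_simp at h0
    linarith
  exact hne (by exact_mod_cast h1)

lemma not_square (ρ : ℕ → ℕ) (j : ℕ) (I : Finset ℕ) (hj : j ∉ I)
    (hpos : ∀ i ∈ insert j I, 1 ≤ ρ i) (hinj : ∀ i ∈ I, ρ i ≠ ρ j)
    (f g : Polynomial ℤ) (hg : g ≠ 0) :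
    f ^ 2 ≠ g ^ 2 * (∏ i ∈ insert j I, aPol (ρ i)) := by
  intro hr
  set m := Polynomial.mapRingHom (Int.castRingHom ℚ) with hm
  have hminj : Function.Injective m := Polynomial.map_injective _ Int.cast_injective
  have h1 : (m f) ^ 2 = (m g) ^ 2 * ∏ i ∈ insert j I, m (aPol (ρ i)) := by
    rw [← map_pow, hr, map_mul, map_pow, map_prod]
  set P : Polynomial ℚ := ∏ i ∈ insert j I, m (aPol (ρ i)) with hP
  have hP0 : P ≠ 0 := prod_ne_zero_iff.2 (fun i hi => aPol_map_ne_zero (hpos i hi))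
  have hd : m g ≠ 0 := by
    intro h
    exact hg (hminj (by rw [h, map_zero]))
  set c : ℚ := -(1 / (4 * (ρ j : ℚ))) with hc
  have hmP : P.rootMultiplicity c = 1 := by
    have hj1 := hpos j (mem_insert_self _ _)
    rw [hP, prod_insert hj] at hP0 ⊢
    rw [Polynomial.rootMultiplicity_mul hP0]
    have e1 : (m (aPol (ρ j))).rootMultiplicity c = 1 := rootMult_self hj1
    have e2 : (∏ i ∈ I, m (aPol (ρ i))).rootMultiplicity c = 0 := by
      apply Polynomial.rootMultiplicity_eq_zero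
      rw [Polynomial.IsRoot.def, Polynomial.eval_prod]
      apply prod_ne_zero_iff.2
      intro i hi
      exact eval_aPol_ne hj1 (hinj i hi)
    rw [e1, e2]
  have hn0 : (m f) ^ 2 ≠ 0 := by
    rw [h1]
    exact mul_ne_zero (pow_ne_zero 2 hd) hP0
  have h4 : ((m f) ^ 2).rootMultiplicity c = 2 * (m f).rootMultiplicity c := by
    rw [pow_two] at hn0 ⊢
    rw [Polynomial.rootMultiplicity_mul hn0]
    ring
  have h5 : ((m g) ^ 2 * P).rootMultiplicity c = 2 * (m g).rootMultiplicity c + 1 := by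
    rw [h1] at hn0
    rw [Polynomial.rootMultiplicity_mul hn0, hmP, pow_two,
      Polynomial.rootMultiplicity_mul (mul_ne_zero hd hd)]
    ring
  rw [h1, h5] at h4
  omega

/-- the tower for the series `zs (ρ i)` -/
lemma phi_sq_mem (ρ : ℕ → ℕ) (i : ℕ) : (fun i => phi (ρ i)) i ^ 2 ∈ K0 := by
  show phi (ρ i) ^ 2 ∈ K0
  rw [phi_sq]
  exact iP_mem _

def KK (ρ : ℕ → ℕ) (j : ℕ) : Subfield (LaurentSeries ℚ) :=
  (chain K0 (fun i => phi (ρ i)) (phi_sq_mem ρ) j).1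

lemma K0_le_KK (ρ : ℕ → ℕ) (j : ℕ) : K0 ≤ KK ρ j :=
  (chain K0 (fun i => phi (ρ i)) (phi_sq_mem ρ) j).2

lemma KK_le_succ (ρ : ℕ → ℕ) (j : ℕ) : KK ρ j ≤ KK ρ (j + 1) :=
  chain_le_succ (phi_sq_mem ρ) j

lemma two_mem (K : Subfield (LaurentSeries ℚ)) : (2 : LaurentSeries ℚ) ∈ K := by
  have := K.add_mem K.one_mem K.one_mem
  rwa [one_add_one_eq_two] at this

lemma zs_mem_succ (ρ : ℕ → ℕ) (j : ℕ) : iota (zs (ρ j)) ∈ KK ρ (j + 1) := by
  have h1 : phi (ρ j) ∈ KK ρ (j + 1) := phi_mem_chain (phi_sq_mem ρ) j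
  have h2 : iota (zs (ρ j)) = (phi (ρ j) - 1) * 2⁻¹ := by
    rw [eq_mul_inv_iff_mul_eq₀ two_ne]
    unfold phi
    ring
  rw [h2]
  exact (KK ρ (j + 1)).mul_mem ((KK ρ (j + 1)).sub_mem h1 (KK ρ (j + 1)).one_mem)
    ((KK ρ (j + 1)).inv_mem (two_mem _))

lemma zs_not_mem (ρ : ℕ → ℕ) (j : ℕ) (hpos : ∀ i ≤ j, 1 ≤ ρ i) (hinj : ∀ i < j, ρ i ≠ ρ j) :
    iota (zs (ρ j)) ∉ KK ρ j := by
  intro hz
  have h1 : phi (ρ j) ∈ KK ρ j := by
    unfold phi
    exact (KK ρ j).add_mem (KK ρ j).one_mem ((KK ρ j).mul_mem (two_mem _) hz)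
  refine not_mem_chain (phi_sq_mem ρ) two_ne j ?_ h1
  intro I hI y hy hr
  obtain ⟨f, g, hg, hfg⟩ := mem_K0.1 hy
  have hjI : j ∉ I := fun h => by simpa using hI h
  apply not_square ρ j I hjI ?_ ?_ f g hg
  · apply iP_injective
    rw [map_pow, ← hfg, mul_pow, hr, map_mul, map_pow, map_prod, prod_insert hjI]
    simp only [phi_sq]
    ring
  · intro i hi
    rcases mem_insert.1 hi with rfl | hi
    · exact hpos _ le_rfl
    · exact hpos i (by have := mem_range.1 (hI hi); omega)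
  · intro i hi
    exact hinj i (mem_range.1 (hI hi))

/-- `P + Q z_j = 0` with `P, Q` in the `j`-th field implies `P = Q = 0` -/
lemma lin_indep_step (ρ : ℕ → ℕ) (j : ℕ) (hpos : ∀ i ≤ j, 1 ≤ ρ i) (hinj : ∀ i < j, ρ i ≠ ρ j)
    (P Q : PowerSeries ℤ) (hP : iota P ∈ KK ρ j) (hQ : iota Q ∈ KK ρ j)
    (h : P + Q * zs (ρ j) = 0) : P = 0 ∧ Q = 0 := by
  have h1 : iota P + iota Q * iota (zs (ρ j)) = 0 := by
    rw [← map_mul, ← map_add, h, map_zero]
  have hQ0 : iota Q = 0 := by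
    by_contra hne
    apply zs_not_mem ρ j hpos hinj
    have : iota (zs (ρ j)) = -iota P * (iota Q)⁻¹ := by
      rw [eq_mul_inv_iff_mul_eq₀ hne]
      linear_combination h1
    rw [this]
    exact (KK ρ j).mul_mem ((KK ρ j).neg_mem hP) ((KK ρ j).inv_mem hQ)
  have hQ1 : Q = 0 := iota_injective (by rw [hQ0, map_zero])
  refine ⟨?_, hQ1⟩
  rw [hQ1, zero_mul, add_zero] at h
  exact h

end

end Pool.Agent.FactLoc
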